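import Pool.Agent.Helper15.Pair.Kaz
import Pool.Agent.H29.PairE

/-! The Kazhdan type inequality for all `N ≥ 5`. -/

set_option linter.unusedSectionVars false

namespace Pool.Agent.Helper15.Pair

open Equiv Filter Pool.Agent.Helper15.An

theorem KazPair.mono {N : ℕ} {C C' : ℝ} (h : KazPair N C) (hle : C ≤ C') : KazPair N C' := by
  obtain ⟨x, y, hxy⟩ := h
  refine ⟨x, y, ?_⟩
  intro V _ _ _ ρ hρ v g
  refine (hxy V ρ hρ v g).trans ?_
  gcongr

theorem kaz_large : ∃ (C : ℝ) (N₀ : ℕ), ∀ N, N₀ ≤ N → KazPair N C := by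
  obtain ⟨Ks, hKs1, hKs⟩ := exists_RR
  obtain ⟨Nb, hNb⟩ := eventually_atTop.1 eventually_big
  set C₁ : ℕ := 4 ^ (Ks * 8 + 3) with hC₁
  have hC₁1 : 1 ≤ C₁ := Nat.one_le_pow _ _ (by norm_num)
  have hg := grow 360 ((C₁ * (Nb + 15) : ℕ) : ℝ) (Nat.cast_nonneg _)
  obtain ⟨N1, hN1⟩ := eventually_atTop.1 (hg.and eventually_big)
  set J := 6 * C₁ with hJ
  refine ⟨(216 * 4 ^ (Ks * 8 + 1) + 2 * J) * 2 ^ (J + 1), N1 + 1, fun N hN => ?_⟩
  obtain ⟨hgrow, hbig⟩ := hN1 N (by omega)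
  obtain ⟨m, K', hm1, hm2, hK1, hK2, hRR⟩ := hKs N (kk_pos hbig)
  have hNe : NeZero N := ⟨by omega⟩
  have hm3 : m * m ≤ (4 * kk N) ^ 360 := by
    calc m * m ≤ (4 * kk N) ^ 180 * (4 * kk N) ^ 180 := by gcongr
      _ = (4 * kk N) ^ 360 := by rw [← pow_add]
  have hgrow' : C₁ * (Nb + 15) * (4 * kk N) ^ 360 ≤ N := by
    have : ((C₁ * (Nb + 15) * (4 * kk N) ^ 360 : ℕ) : ℝ) ≤ N := by
      push_cast at hgrow ⊢
      exact hgrow
    exact_mod_cast this
  have hden : 0 < C₁ * (m * m) := by positivity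
  set b := N / (C₁ * (m * m)) with hb
  have hb15 : Nb + 15 ≤ b := by
    rw [hb, Nat.le_div_iff_mul_le hden]
    calc (Nb + 15) * (C₁ * (m * m)) ≤ (Nb + 15) * (C₁ * (4 * kk N) ^ 360) := by gcongr
      _ = C₁ * (Nb + 15) * (4 * kk N) ^ 360 := by ring
      _ ≤ N := hgrow'
  have hbN : b * (C₁ * (m * m)) ≤ N := Nat.div_mul_le_self _ _
  have hbN2 : N < (b + 1) * (C₁ * (m * m)) := by
    have := Nat.lt_mul_div_succ N hden
    rw [← hb] at this
    linarith [this, mul_comm (C₁ * (m * m)) (b + 1)]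
  set M := m * (b * m) with hM
  have hMe : M = b * (m * m) := by rw [hM]; ring
  have hbm : b ≤ b * m := Nat.le_mul_of_pos_right _ (by omega)
  have hMb : b * m ≤ M := by rw [hM]; exact Nat.le_mul_of_pos_left _ (by omega)
  have hCM : C₁ * M ≤ N := by
    calc C₁ * M = b * (C₁ * (m * m)) := by rw [hMe]; ring
      _ ≤ N := hbN
  have hMN : M ≤ N := by
    have : M ≤ C₁ * M := Nat.le_mul_of_pos_left _ (by omega)
    omega
  have hRR' := hRR (b * m) (hNb _ (by omega)) (by omega)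
  set a' := (M - 2) / 4 with ha'
  have hM15 : 15 ≤ M := by omega
  have e1 : 2 * (2 * a') + 2 ≤ M := by omega
  have e2 : M ≤ 3 * (2 * a') := by omega
  have e3 : 4 ^ (K' * 8 + 3) * (2 * a') ≤ N := by
    have h1 : 4 ^ (K' * 8 + 3) ≤ C₁ := Nat.pow_le_pow_right (by norm_num) (by omega)
    calc 4 ^ (K' * 8 + 3) * (2 * a') ≤ C₁ * M := Nat.mul_le_mul h1 (by omega)
      _ ≤ N := hCM
  have e4 : N ≤ J * (2 * a') := by
    have h1 : (b + 1) * (C₁ * (m * m)) ≤ 2 * (C₁ * M) := by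
      rw [hMe]
      calc (b + 1) * (C₁ * (m * m)) ≤ (2 * b) * (C₁ * (m * m)) :=
            Nat.mul_le_mul_right _ (by omega)
        _ = 2 * (C₁ * (b * (m * m))) := by ring
    have h2 : C₁ * M ≤ C₁ * (3 * (2 * a')) := Nat.mul_le_mul_left _ e2
    have h3 : J * (2 * a') = 2 * (C₁ * (3 * (2 * a'))) := by rw [hJ]; ring
    omega
  refine (kaz_of_GG (by omega) (by omega) (GG.of hRR') e1 e2 e3 e4).mono ?_
  have h1 : (4 : ℝ) ^ (K' * 8 + 1) ≤ 4 ^ (Ks * 8 + 1) :=
    pow_le_pow_right₀ (by norm_num) (by omega)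
  gcongr

theorem disp_isLen {G V : Type} [Group G] [Fintype G] [NormedAddCommGroup V] [InnerProductSpace ℂ V]
    (ρ : Representation ℂ G V) (hρ : ∀ g v, ‖ρ g v‖ = ‖v‖) (v : V) :
    IsLen (fun g => ‖ρ g v - v‖) where
  nonneg _ := norm_nonneg _
  one := by rw [map_one]; simp
  mul g h := by
    have h2 : ρ (g * h) v - v = ρ g (ρ h v - v) + (ρ g v - v) := by
      rw [map_sub, rho_mul_apply]; abel
    rw [h2]
    refine (norm_add_le _ _).trans ?_
    rw [hρ]
    linarith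
  inv g := by
    rw [← hρ g, map_sub, ← rho_mul_apply, mul_inv_cancel, map_one, ← norm_neg]
    congr 1
    simp

theorem word_bound {G : Type} [Group G] (x y : G) (hxy : Subgroup.closure {x, y} = ⊤) (g : G) :
    ∃ n : ℕ, ∀ L : G → ℝ, IsLen L → L g ≤ n * (L x + L y) := by
  have hg : g ∈ Subgroup.closure {x, y} := by rw [hxy]; trivial
  induction hg using Subgroup.closure_induction with
  | mem z hz =>
    refine ⟨1, fun L hL => ?_⟩
    have hx := hL.nonneg x
    have hy := hL.nonneg y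
    rcases hz with rfl | hz
    · push_cast; linarith
    · rw [Set.mem_singleton_iff] at hz
      subst hz
      push_cast; linarith
  | one => exact ⟨0, fun L hL => by rw [hL.one]; simp⟩
  | mul a b _ _ ha hb =>
    obtain ⟨n1, h1⟩ := ha
    obtain ⟨n2, h2⟩ := hb
    refine ⟨n1 + n2, fun L hL => ?_⟩
    have := hL.mul a b
    have h3 := h1 L hL
    have h4 := h2 L hL
    push_cast
    linarith
  | inv a _ ha =>
    obtain ⟨n1, h1⟩ := ha
    exact ⟨n1, fun L hL => by rw [hL.inv]; exact h1 L hL⟩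

theorem kaz_small (N : ℕ) (hN : 5 ≤ N) : ∃ C : ℝ, KazPair N C := by
  obtain ⟨x, y, hxy⟩ := Pool.Agent.H29.Pair.alt_two_gen N hN
  choose n hn using fun g => word_bound x y hxy g
  refine ⟨((∑ g, n g : ℕ) : ℝ), x, y, ?_⟩
  intro V _ _ _ ρ hρ v g
  have h1 := hn g _ (disp_isLen ρ hρ v)
  refine h1.trans ?_
  have h2 : n g ≤ ∑ g, n g := Finset.single_le_sum (fun _ _ => Nat.zero_le _) (Finset.mem_univ g)
  gcongr

/-- a Kazhdan pair with a uniform constant in every alternating group of degree at least five -/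
theorem kaz_all : ∃ C : ℝ, 0 < C ∧ ∀ N, 5 ≤ N → KazPair N C := by
  obtain ⟨C₀, N₀, h₀⟩ := kaz_large
  choose! c hc using kaz_small
  refine ⟨max C₀ 0 + (∑ N ∈ Finset.range N₀, |c N|) + 1, by positivity, fun N hN => ?_⟩
  by_cases h : N < N₀
  · refine (hc N hN).mono ?_
    have h1 : |c N| ≤ ∑ N ∈ Finset.range N₀, |c N| :=
      Finset.single_le_sum (f := fun N => |c N|) (fun _ _ => abs_nonneg _) (Finset.mem_range.2 h)
    have h2 := le_abs_self (c N)
    have h3 := le_max_right C₀ 0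
    linarith
  · refine (h₀ N (by omega)).mono ?_
    have h1 : 0 ≤ ∑ N ∈ Finset.range N₀, |c N| := Finset.sum_nonneg fun _ _ => abs_nonneg _
    have h3 := le_max_left C₀ 0
    linarith

end Pool.Agent.Helper15.Pair
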