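import Pool.Agent.Helper15.Pair.Large

/-! Random balanced colourings: the norm bound. -/

set_option linter.unusedSectionVars false

namespace Pool.Agent.Helper15.Pair

open Equiv

theorem factorial_le_stirling (q : ℕ) (hq : 0 < q) :
    (q.factorial : ℝ) ≤ Real.exp 1 * Real.sqrt q * (q / Real.exp 1) ^ q := by
  have h1 := Stirling.stirlingSeq'_antitone (Nat.zero_le (q - 1))
  have h2 : (q - 1).succ = q := by omega
  simp only [Function.comp, h2] at h1
  have h3 : Stirling.stirlingSeq (Nat.succ 0) = Real.exp 1 / √2 := Stirling.stirlingSeq_one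
  rw [h3] at h1
  unfold Stirling.stirlingSeq at h1
  have hq' : (0 : ℝ) < q := by exact_mod_cast hq
  have hpos : 0 < √(2 * (q : ℝ)) * (q / Real.exp 1) ^ q := by positivity
  rw [div_le_iff₀ hpos] at h1
  refine h1.trans (le_of_eq ?_)
  rw [Real.sqrt_mul (by norm_num)]
  have h2' : √(2 : ℝ) ≠ 0 := by positivity
  field_simp

theorem le_factorial_exp (n : ℕ) : ((n : ℝ) / Real.exp 1) ^ n ≤ n.factorial := by
  have h1 := Real.pow_div_factorial_le_exp (n : ℝ) (Nat.cast_nonneg n) n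
  have hf : (0 : ℝ) < n.factorial := by exact_mod_cast n.factorial_pos
  rw [div_le_iff₀ hf] at h1
  rw [div_pow, div_le_iff₀ (by positivity), ← Real.exp_nat_mul, mul_one, mul_comm]
  exact h1

/-- size of the colour classes -/
def qq : ℕ := 10000

theorem qq_eq : qq = 10000 := rfl

theorem qq_cast : (qq : ℝ) = 10000 := by rw [qq_eq]; norm_num

theorem num_core (q K : ℕ) (A C e : ℝ) (hC : 0 ≤ C) (he : 0 < e)
    (h1 : (q.factorial : ℝ) ≤ A * (q / e) ^ q)
    (h3 : ((K * q : ℕ) / e) ^ (K * q) ≤ ((K * q).factorial : ℝ))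
    (h4 : (A * C) ^ K ≤ 1 / 20) :
    (q.factorial : ℝ) ^ K * ((K : ℝ) ^ (K * q) * C ^ K) ≤ 1 / 20 * (K * q).factorial := by
  calc (q.factorial : ℝ) ^ K * ((K : ℝ) ^ (K * q) * C ^ K) ≤
        (A * (q / e) ^ q) ^ K * ((K : ℝ) ^ (K * q) * C ^ K) := by gcongr
    _ = (A * C) ^ K * ((K * q : ℕ) / e) ^ (K * q) := by
        have h7 : (((K * q : ℕ) : ℝ) / e) ^ (K * q) = ((K : ℝ) ^ q * (q / e) ^ q) ^ K := by
          rw [mul_comm K q, pow_mul]
          congr 1
          rw [← mul_pow]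
          congr 1
          push_cast
          ring
        have h8 : (K : ℝ) ^ (K * q) = ((K : ℝ) ^ q) ^ K := by
          rw [mul_comm K q, pow_mul]
        rw [h7, h8, ← mul_pow, ← mul_pow, ← mul_pow]
        congr 1
        ring
    _ ≤ 1 / 20 * (K * q).factorial := by
        gcongr

theorem num_large (K j : ℕ) (hK : 0 < K) (hj : 100 * K ≤ j) :
    (qq.factorial : ℝ) ^ K *
      ((K : ℝ) ^ (K * qq) * Real.sqrt (1 / 2 + 1 / 100) ^ j) ≤
      1 / 20 * (K * qq).factorial := by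
  have hepos : 0 < Real.exp 1 := Real.exp_pos 1
  have he3 : Real.exp 1 < 2.7182818286 := Real.exp_one_lt_d9
  have h1 : (qq.factorial : ℝ) ≤ Real.exp 1 * 100 * (qq / Real.exp 1) ^ qq := by
    have := factorial_le_stirling qq (by rw [qq_eq]; norm_num)
    have h2 : √(qq : ℝ) = 100 := by
      rw [qq_cast, show (10000 : ℝ) = 100 ^ 2 by norm_num]
      exact Real.sqrt_sq (by norm_num)
    rwa [h2] at this
  set β := Real.sqrt (1 / 2 + 1 / 100) with hβ
  have hβ0 : 0 ≤ β := Real.sqrt_nonneg _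
  have hβ1 : β ≤ 1 := Real.sqrt_le_one.2 (by norm_num)
  have hβ100 : β ^ 100 = (51 / 100) ^ 50 := by
    rw [show (100 : ℕ) = 2 * 50 by norm_num, pow_mul, hβ, Real.sq_sqrt (by norm_num)]
    norm_num
  have h2 : β ^ j ≤ ((51 / 100 : ℝ) ^ 50) ^ K := by
    rw [← hβ100, ← pow_mul]
    exact pow_le_pow_of_le_one hβ0 hβ1 hj
  have h4 : (Real.exp 1 * 100 * (51 / 100) ^ 50) ^ K ≤ 1 / 20 := by
    have h5 : Real.exp 1 * 100 * (51 / 100) ^ 50 ≤ 1 / 20 := by
      calc Real.exp 1 * 100 * (51 / 100) ^ 50 ≤ 2.7182818286 * 100 * (51 / 100) ^ 50 := by gcongr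
        _ ≤ 1 / 20 := by norm_num
    have h6 : (0 : ℝ) ≤ Real.exp 1 * 100 * (51 / 100) ^ 50 := by positivity
    calc (Real.exp 1 * 100 * (51 / 100) ^ 50) ^ K ≤ (Real.exp 1 * 100 * (51 / 100) ^ 50) ^ 1 :=
          pow_le_pow_of_le_one h6 (h5.trans (by norm_num)) hK
      _ ≤ 1 / 20 := by rw [pow_one]; exact h5
  refine le_trans ?_ (num_core qq K (Real.exp 1 * 100) ((51 / 100) ^ 50) (Real.exp 1)
    (by positivity) hepos h1 (le_factorial_exp (K * qq)) h4)
  gcongr

section avg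
variable {I G : Type} [Fintype I] [DecidableEq I] [Group G] [Fintype G]
  {V : Type} [NormedAddCommGroup V] [InnerProductSpace ℂ V] (ρ : Representation ℂ (I → G) V)
  {κ : Type} [Fintype κ] [DecidableEq κ]

theorem pure_avg [FiniteDimensional ℂ V] (hρ : ∀ g v, ‖ρ g v‖ = ‖v‖) {J : Finset I}
    (hJ : J.Nonempty) {v : V} (hv : IsPure ρ J v) (U : κ → G) (hU : Exp G U (1 / 100))
    (hperf : Perf G) (hκ : 0 < Fintype.card κ) (c₀ : I → κ) (hc₀ : ∀ k, colN c₀ k = qq) :
    ‖∑ σ : Perm I, ρ (fun i => U (c₀ (σ i))) v‖ ≤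
      1 / 20 * (Fintype.card I).factorial * ‖v‖ := by
  have hI : Fintype.card I = Fintype.card κ * qq := by
    rw [← sum_colN c₀]
    simp_rw [hc₀]
    simp
  have hf : (0 : ℝ) < (Fintype.card I).factorial := by exact_mod_cast Nat.factorial_pos _
  have hqK : (1 : ℝ) ≤ Fintype.card κ := by exact_mod_cast hκ
  by_cases hcase : 100 * J.card ≤ Fintype.card I
  · obtain ⟨j, hj⟩ := hJ
    have h1 := small_bound ρ hρ hv hj U (1 / 100) hU c₀ qq hc₀
    have h2 : (Jᶜ.card : ℝ) = Fintype.card I - J.card := by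
      rw [Finset.card_compl, Nat.cast_sub (Finset.card_le_univ J)]
    have h3 : 100 * (J.card : ℝ) ≤ Fintype.card I := by exact_mod_cast hcase
    have h4 : (0 : ℝ) < Fintype.card I := by
      rw [hI]; push_cast; rw [qq_cast]; positivity
    rw [h2] at h1
    set S := ‖∑ σ : Perm I, ρ (fun i => U (c₀ (σ i))) v‖ with hS
    have hS0 : 0 ≤ S := norm_nonneg _
    have h5 : (99 / 100 * (Fintype.card I : ℝ)) * S ≤
        (99 / 100 * (Fintype.card I : ℝ)) *
          (1 / 20 * (Fintype.card I).factorial * ‖v‖) := by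
      calc (99 / 100 * (Fintype.card I : ℝ)) * S ≤ ((Fintype.card I : ℝ) - J.card) * S := by
            gcongr
            linarith
        _ ≤ _ := h1
        _ ≤ (Fintype.card I * (1 / 100) + Fintype.card I * (1 / 100)) *
            (Fintype.card I).factorial * ‖v‖ := by
            gcongr
            linarith
        _ ≤ _ := by
            have : 0 ≤ (Fintype.card I : ℝ) * (Fintype.card I).factorial * ‖v‖ := by positivity
            nlinarith
    exact le_of_mul_le_mul_left h5 (by positivity)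
  · push Not at hcase
    have h1 := large_bound ρ hρ hv U (1 / 100) (by norm_num) hU hperf hκ c₀ qq hc₀
    refine h1.trans ?_
    have h2 : 100 * Fintype.card κ ≤ J.card := by
      rw [hI, qq_eq] at hcase
      omega
    have h3 := num_large (Fintype.card κ) J.card hκ h2
    rw [← hI] at h3
    calc (qq.factorial : ℝ) ^ Fintype.card κ * ((Fintype.card κ : ℝ) ^ Fintype.card I *
          Real.sqrt (1 / 2 + 1 / 100) ^ J.card * ‖v‖) =
          ((qq.factorial : ℝ) ^ Fintype.card κ * ((Fintype.card κ : ℝ) ^ Fintype.card I *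
          Real.sqrt (1 / 2 + 1 / 100) ^ J.card)) * ‖v‖ := by ring
      _ ≤ _ := by gcongr

/-- averages of the conjugates of a balanced colouring are small -/
theorem perm_avg [FiniteDimensional ℂ V] (hρ : ∀ g v, ‖ρ g v‖ = ‖v‖) (U : κ → G)
    (hU : Exp G U (1 / 100)) (hperf : Perf G) (hκ : 0 < Fintype.card κ) (c₀ : I → κ)
    (hc₀ : ∀ k, colN c₀ k = qq) (v : V) (hv : ∑ g, ρ g v = 0) :
    ‖∑ σ : Perm I, ρ (fun i => U (c₀ (σ i))) v‖ ≤
      1 / 20 * (Fintype.card I).factorial * ‖v‖ := by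
  set T : V →ₗ[ℂ] V := ∑ σ : Perm I, ρ (fun i => U (c₀ (σ i))) with hT
  have h1 : ∀ w, T w = ∑ σ : Perm I, ρ (fun i => U (c₀ (σ i))) w := by
    intro w
    rw [hT, LinearMap.sum_apply]
  rw [← h1]
  refine of_pure ρ hρ T ?_ _ (by positivity) ?_ v hv
  · intro i w
    rw [h1, h1]
    simp_rw [map_sum (coordRep ρ i _)]
    rw [Finset.sum_comm]
    refine Finset.sum_congr rfl fun σ _ => ?_
    rw [sum_coord_comm]
  · intro J hJ w hw
    rw [h1]
    exact pure_avg ρ hρ hJ hw U hU hperf hκ c₀ hc₀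

end avg

end Pool.Agent.Helper15.Pair
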