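import Mathlib

/-! Expanding families with respect to all finite dimensional isometric representations. -/

set_option linter.unusedSectionVars false

namespace Pool.Agent.Helper15.Pair

open scoped ComplexConjugate

/-- `U` is an `η`-expanding family of elements of `G`: in every finite dimensional isometric
representation the average over `U` contracts by `η` on the vectors without invariant part. -/
def Exp (G : Type) [Group G] [Fintype G] {κ : Type} [Fintype κ] (U : κ → G) (η : ℝ) : Prop :=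
  ∀ (V : Type) [NormedAddCommGroup V] [InnerProductSpace ℂ V] [FiniteDimensional ℂ V]
    (ρ : Representation ℂ G V), (∀ g v, ‖ρ g v‖ = ‖v‖) →
    ∀ v : V, (∑ g, ρ g v) = 0 → ‖∑ k, ρ (U k) v‖ ≤ η * Fintype.card κ * ‖v‖

/-- no non-trivial one-dimensional representations -/
def Perf (G : Type) [Group G] : Prop := ∀ χ : G →* ℂˣ, ∀ g, χ g = 1

section basic
variable {G : Type} [Group G] [Fintype G] {V : Type} [NormedAddCommGroup V]
  [InnerProductSpace ℂ V] (ρ : Representation ℂ G V)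

theorem rho_mul_apply (g h : G) (v : V) : ρ (g * h) v = ρ g (ρ h v) := by
  rw [map_mul]; rfl

theorem rho_sum_left (h : G) (v : V) : ρ h (∑ g, ρ g v) = ∑ g, ρ g v := by
  rw [map_sum]
  simp_rw [← rho_mul_apply ρ]
  exact Equiv.sum_comp (Equiv.mulLeft h) (fun g => ρ g v)

theorem rho_sum_right (h : G) (v : V) : ∑ g, ρ g (ρ h v) = ∑ g, ρ g v := by
  simp_rw [← rho_mul_apply ρ]
  exact Equiv.sum_comp (Equiv.mulRight h) (fun g => ρ g v)

theorem inner_map_map (hρ : ∀ g v, ‖ρ g v‖ = ‖v‖) (g : G) (v w : V) :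
    inner ℂ (ρ g v) (ρ g w) = inner ℂ v w :=
  ((LinearMap.norm_map_iff_inner_map_map (ρ g)).1 (hρ g)) v w

theorem inner_map_left (hρ : ∀ g v, ‖ρ g v‖ = ‖v‖) (g : G) (v w : V) :
    inner ℂ (ρ g v) w = inner ℂ v (ρ g⁻¹ w) := by
  rw [← inner_map_map ρ hρ g v, ← rho_mul_apply, mul_inv_cancel, map_one]; rfl

/-- the part of `v` without invariants -/
noncomputable def nonInv (v : V) : V := v - (Fintype.card G : ℂ)⁻¹ • ∑ g, ρ g v

theorem card_ne : (Fintype.card G : ℂ) ≠ 0 := by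
  exact_mod_cast Fintype.card_ne_zero

theorem sum_nonInv (v : V) : ∑ g, ρ g (nonInv ρ v) = 0 := by
  unfold nonInv
  simp_rw [map_sub, map_smul, rho_sum_left ρ]
  rw [Finset.sum_sub_distrib, Finset.sum_const, Finset.card_univ, ← Nat.cast_smul_eq_nsmul ℂ,
    smul_smul, mul_inv_cancel₀ card_ne, one_smul, sub_self]

theorem inner_inv_nonInv (hρ : ∀ g v, ‖ρ g v‖ = ‖v‖) (v w : V) (hw : ∑ g, ρ g w = 0) :
    inner ℂ (∑ g, ρ g v) w = 0 := by
  rw [sum_inner]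
  have h1 : ∀ g : G, inner ℂ (ρ g v) w = inner ℂ v (ρ g⁻¹ w) := fun g => inner_map_left ρ hρ g v w
  simp_rw [h1]
  have h2 : ∑ g, ρ g⁻¹ w = ∑ g, ρ g w := Equiv.sum_comp (Equiv.inv G) (fun g => ρ g w)
  rw [← inner_sum, h2, hw, inner_zero_right]

theorem norm_sq_split (hρ : ∀ g v, ‖ρ g v‖ = ‖v‖) (v : V) :
    ‖v‖ ^ 2 = ‖(Fintype.card G : ℂ)⁻¹ • ∑ g, ρ g v‖ ^ 2 + ‖nonInv ρ v‖ ^ 2 := by
  have h1 : v = (Fintype.card G : ℂ)⁻¹ • ∑ g, ρ g v + nonInv ρ v := by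
    unfold nonInv; abel
  have h2 : inner ℂ ((Fintype.card G : ℂ)⁻¹ • ∑ g, ρ g v) (nonInv ρ v) = 0 := by
    rw [inner_smul_left, inner_inv_nonInv ρ hρ v _ (sum_nonInv ρ v), mul_zero]
  have h3 := norm_add_sq_eq_norm_sq_add_norm_sq_of_inner_eq_zero _ _ h2
  rw [← h1] at h3
  rw [sq, sq, sq]
  exact h3

theorem norm_nonInv_le (hρ : ∀ g v, ‖ρ g v‖ = ‖v‖) (v : V) : ‖nonInv ρ v‖ ≤ ‖v‖ := by
  have h := norm_sq_split ρ hρ v
  have h2 : ‖nonInv ρ v‖ ^ 2 ≤ ‖v‖ ^ 2 := by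
    have : 0 ≤ ‖(Fintype.card G : ℂ)⁻¹ • ∑ g, ρ g v‖ ^ 2 := by positivity
    linarith
  exact (abs_le_of_sq_le_sq' h2 (norm_nonneg v)).2

end basic

end Pool.Agent.Helper15.Pair
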