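import Pool.Agent.Helper15.An.Graph
import Pool.Agent.Helper15.Pair.Def

/-! Expanding families for large alternating groups. -/

set_option linter.unusedSectionVars false

namespace Pool.Agent.Helper15.Pair

section symm
variable {V : Type} [NormedAddCommGroup V] [InnerProductSpace ℂ V] [FiniteDimensional ℂ V]

theorem norm_le_of_eig_aux (T : V →ₗ[ℂ] V) (hT : T.IsSymmetric) (c : ℝ) (hc : 0 ≤ c)
    (heig : ∀ u : V, u ≠ 0 → ∀ l : ℝ, T u = (l : ℂ) • u → |l| ≤ c) (w : V) :
    ‖T w‖ ≤ c * ‖w‖ := by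
  set b := hT.eigenvectorBasis (rfl : Module.finrank ℂ V = _) with hb
  set l := hT.eigenvalues (rfl : Module.finrank ℂ V = _) with hl
  have hap : ∀ i, T (b i) = (l i : ℂ) • b i := fun i => hT.apply_eigenvectorBasis rfl i
  have hne : ∀ i, b i ≠ 0 := fun i h => by
    have := b.orthonormal.1 i
    rw [h] at this
    simp at this
  have hle : ∀ i, |l i| ≤ c := fun i => heig (b i) (hne i) (l i) (hap i)
  have h1 : ‖T w‖ ^ 2 ≤ (c * ‖w‖) ^ 2 := by
    rw [← b.sum_sq_norm_inner_right, mul_pow, ← b.sum_sq_norm_inner_right w, Finset.mul_sum]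
    refine Finset.sum_le_sum fun i _ => ?_
    rw [← hT (b i) w, hap i, inner_smul_left, norm_mul, mul_pow, Complex.conj_ofReal,
      Complex.norm_real, Real.norm_eq_abs]
    gcongr
    exact hle i
  exact (abs_le_of_sq_le_sq' h1 (by positivity)).2

/-- norm bound from eigenvalue bound -/
theorem norm_le_of_eig (T : V →ₗ[ℂ] V) (hT : T.IsSymmetric) (W : Submodule ℂ V)
    (hW : ∀ w ∈ W, T w ∈ W) (c : ℝ) (hc : 0 ≤ c)
    (heig : ∀ u ∈ W, u ≠ 0 → ∀ l : ℝ, T u = (l : ℂ) • u → |l| ≤ c) (w : V) (hw : w ∈ W) :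
    ‖T w‖ ≤ c * ‖w‖ := by
  have h1 := norm_le_of_eig_aux (T.restrict hW) (hT.restrict_invariant hW) c hc (by
    intro u hu l hl
    refine heig u u.2 (fun h => hu (Subtype.ext h)) l ?_
    have := congrArg Subtype.val hl
    simpa using this) ⟨w, hw⟩
  simpa using h1

end symm

/-- there is an expanding family with `D` members -/
def HasExp (G : Type) [Group G] [Fintype G] (D : ℕ) (η : ℝ) : Prop := ∃ U : Fin D → G, Exp G U η

section gen
variable {G : Type} [Group G] [Fintype G]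

theorem HasExp.of {κ : Type} [Fintype κ] {U : κ → G} {η : ℝ} (h : Exp G U η) :
    HasExp G (Fintype.card κ) η := by
  refine ⟨fun i => U ((Fintype.equivFin κ).symm i), ?_⟩
  intro V _ _ _ ρ hρ v hv
  have h1 := h V ρ hρ v hv
  rw [Equiv.sum_comp (Fintype.equivFin κ).symm (fun i => ρ (U i) v), Fintype.card_fin]
  exact h1

theorem Exp.mul {κ κ' : Type} [Fintype κ] [Fintype κ'] {U : κ → G} {U' : κ' → G} {η η' : ℝ}
    (h : Exp G U η) (h' : Exp G U' η') (hη : 0 ≤ η) :
    Exp G (fun p : κ × κ' => U p.1 * U' p.2) (η * η') := by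
  intro V _ _ _ ρ hρ v hv
  have h1 := h' V ρ hρ v hv
  set w := ∑ k, ρ (U' k) v with hw
  have h2 : ∑ g, ρ g w = 0 := by
    rw [hw]
    simp_rw [map_sum]
    rw [Finset.sum_comm]
    refine Finset.sum_eq_zero fun k _ => ?_
    rw [rho_sum_right, hv]
  have h3 := h V ρ hρ w h2
  have h4 : ∑ p : κ × κ', ρ (U p.1 * U' p.2) v = ∑ k, ρ (U k) w := by
    rw [Fintype.sum_prod_type]
    refine Finset.sum_congr rfl fun k _ => ?_
    rw [hw, map_sum]
    refine Finset.sum_congr rfl fun k' _ => ?_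
    rw [rho_mul_apply]
  rw [h4, Fintype.card_prod]
  calc _ ≤ η * Fintype.card κ * ‖w‖ := h3
    _ ≤ η * Fintype.card κ * (η' * Fintype.card κ' * ‖v‖) := by gcongr
    _ = _ := by push_cast; ring

theorem HasExp.mul {D D' : ℕ} {η η' : ℝ} (h : HasExp G D η) (h' : HasExp G D' η') (hη : 0 ≤ η) :
    HasExp G (D * D') (η * η') := by
  obtain ⟨U, hU⟩ := h
  obtain ⟨U', hU'⟩ := h'
  have := HasExp.of (hU.mul hU' hη)
  simpa using this

theorem HasExp.mono {D : ℕ} {η η' : ℝ} (h : HasExp G D η) (hle : η ≤ η') : HasExp G D η' := by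
  obtain ⟨U, hU⟩ := h
  refine ⟨U, ?_⟩
  intro V _ _ _ ρ hρ v hv
  refine (hU V ρ hρ v hv).trans ?_
  gcongr

theorem HasExp.pow {D : ℕ} {η : ℝ} (h : HasExp G D η) (hη : 0 ≤ η) (r : ℕ) :
    HasExp G (D ^ r) (η ^ r) := by
  induction r with
  | zero =>
    refine ⟨fun _ => 1, ?_⟩
    intro V _ _ _ ρ hρ v hv
    have hc : Fintype.card (Fin (D ^ 0)) = 1 := by simp
    rw [Finset.sum_const, Finset.card_univ, hc, one_smul, map_one]
    simp
  | succ r ih => rw [pow_succ, pow_succ]; exact ih.mul h (by positivity)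

end gen

section base
open Pool.Agent.Helper15.An

variable {n : ℕ} {V : Type} [NormedAddCommGroup V]
  [InnerProductSpace ℂ V] [FiniteDimensional ℂ V] (ρ : Representation ℂ (Alt n) V)

/-- the symmetrized walk operator -/
noncomputable def walk {k : ℕ} (z : Fin k → Alt n) : V →ₗ[ℂ] V :=
  (2 * (k : ℂ))⁻¹ • ∑ i, (ρ (z i) + ρ (z i)⁻¹)

theorem walk_apply {k : ℕ} (z : Fin k → Alt n) (v : V) :
    walk ρ z v = (2 * (k : ℂ))⁻¹ • ∑ i, (ρ (z i) v + ρ (z i)⁻¹ v) := by
  unfold walk
  simp [LinearMap.sum_apply]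

theorem walk_symm {k : ℕ} (z : Fin k → Alt n) (hρ : ∀ g v, ‖ρ g v‖ = ‖v‖) :
    (walk ρ z).IsSymmetric := by
  intro a b
  rw [walk_apply, walk_apply, inner_smul_left, inner_smul_right, sum_inner, inner_sum]
  have h1 : (starRingEnd ℂ) (2 * (k : ℂ))⁻¹ = (2 * (k : ℂ))⁻¹ := by
    rw [map_inv₀, map_mul, Complex.conj_natCast]
    congr 2
    exact Complex.conj_ofNat 2
  rw [h1]
  congr 1
  refine Finset.sum_congr rfl fun i _ => ?_
  rw [inner_add_left, inner_add_right, inner_map_left ρ hρ, inner_map_left ρ hρ, inv_inv,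
    add_comm]

theorem walk_eig {k : ℕ} (F : PW (Equiv.Perm (Fin n))) (z : Fin k → Alt n)
    (hgood : Good F (tupW z) n (1 / 10)) (u : V) (hu : ∑ g, ρ g u = 0) (hu0 : u ≠ 0) (l : ℝ)
    (hl : walk ρ z u = (l : ℂ) • u) : l ≤ 9 / 10 := by
  by_contra hlt
  push Not at hlt
  refine eig_claim F z hgood (fun g => (inner ℂ u (ρ g u)).re) ?_ ?_ l hlt ?_
  · intro h
    have h1 := congrFun h 1
    simp only [map_one, Module.End.one_apply, Pi.zero_apply] at h1
    have h2 := inner_self_eq_norm_sq_to_K (𝕜 := ℂ) u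
    rw [h2] at h1
    have h3 : ‖u‖ ^ 2 = 0 := by exact_mod_cast h1
    exact hu0 (norm_eq_zero.1 (pow_eq_zero_iff (two_ne_zero)|>.1 h3))
  · rw [← Complex.re_sum, ← inner_sum, hu, inner_zero_right, Complex.zero_re]
  · intro g
    have h1 : inner ℂ u (ρ g (walk ρ z u)) = (l : ℂ) * inner ℂ u (ρ g u) := by
      rw [hl, map_smul, inner_smul_right]
    rw [walk_apply, map_smul, inner_smul_right, map_sum, inner_sum] at h1
    have h2 := congrArg Complex.re h1
    rw [Complex.re_ofReal_mul] at h2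
    rw [← h2]
    have h3 : (2 * (k : ℂ))⁻¹ = (((2 * (k : ℝ))⁻¹ : ℝ) : ℂ) := by push_cast; rfl
    rw [h3, Complex.re_ofReal_mul, Complex.re_sum]
    congr 1
    refine Finset.sum_congr rfl fun i _ => ?_
    rw [map_add, inner_add_right, Complex.add_re, rho_mul_apply, rho_mul_apply]

/-- one step of the lazy walk -/
def lazyFam {k : ℕ} (z : Fin k → Alt n) : Fin k × Fin 4 → Alt n := fun p =>
  ![1, 1, z p.1, (z p.1)⁻¹] p.2

theorem lazy_exp {k : ℕ} (hk : 0 < k) (F : PW (Equiv.Perm (Fin n))) (z : Fin k → Alt n)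
    (hgood : Good F (tupW z) n (1 / 10)) : Exp (Alt n) (lazyFam z) (95 / 100) := by
  intro V _ _ _ ρ hρ v hv
  have hk0 : (k : ℂ) ≠ 0 := by exact_mod_cast hk.ne'
  set W : Submodule ℂ V := LinearMap.ker (∑ g, ρ g : V →ₗ[ℂ] V) with hW
  have hmem : ∀ w, w ∈ W ↔ ∑ g, ρ g w = 0 := by
    intro w
    rw [hW, LinearMap.mem_ker, LinearMap.sum_apply]
  set T : V →ₗ[ℂ] V := (2⁻¹ : ℂ) • (LinearMap.id + walk ρ z) with hT
  have hTs : T.IsSymmetric := by
    intro a b
    have h := walk_symm ρ z hρ a b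
    rw [hT]
    simp only [LinearMap.smul_apply, LinearMap.add_apply, LinearMap.id_apply]
    rw [inner_smul_left, inner_smul_right, inner_add_left, inner_add_right, h]
    congr 1
    rw [map_inv₀]
    congr 1
    exact Complex.conj_ofNat 2
  have hinv : ∀ w ∈ W, T w ∈ W := by
    intro w hw
    rw [hmem] at hw ⊢
    rw [hT]
    simp only [LinearMap.smul_apply, LinearMap.add_apply, LinearMap.id_apply, map_smul, map_add]
    rw [← Finset.smul_sum, Finset.sum_add_distrib, hw, zero_add]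
    simp_rw [walk_apply, map_smul, map_sum]
    rw [← Finset.smul_sum, Finset.sum_comm]
    simp_rw [map_add]
    have : ∀ i, ∑ g, (ρ g (ρ (z i) w) + ρ g (ρ (z i)⁻¹ w)) = 0 := by
      intro i
      rw [Finset.sum_add_distrib, rho_sum_right, rho_sum_right, hw, add_zero]
    simp [this]
  have hwn : ∀ u : V, ‖walk ρ z u‖ ≤ ‖u‖ := by
    intro u
    rw [walk_apply, norm_smul]
    have h1 : ‖∑ i, (ρ (z i) u + ρ (z i)⁻¹ u)‖ ≤ 2 * (k : ℝ) * ‖u‖ := by
      refine (norm_sum_le _ _).trans ?_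
      calc ∑ i, ‖ρ (z i) u + ρ (z i)⁻¹ u‖ ≤ ∑ i : Fin k, (2 * ‖u‖) := by
            refine Finset.sum_le_sum fun i _ => ?_
            refine (norm_add_le _ _).trans ?_
            rw [hρ, hρ]; linarith
        _ = _ := by rw [Finset.sum_const, Finset.card_univ, Fintype.card_fin, nsmul_eq_mul]; ring
    have h2 : ‖(2 * (k : ℂ))⁻¹‖ = (2 * (k : ℝ))⁻¹ := by
      rw [norm_inv, norm_mul, Complex.norm_natCast]; simp
    rw [h2, inv_mul_le_iff₀ (by positivity)]
    exact h1
  have h5 := norm_le_of_eig T hTs W hinv (95 / 100) (by norm_num) (by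
    intro u hu hu0 l hl
    rw [hmem] at hu
    have h6 : walk ρ z u = ((2 * l - 1 : ℝ) : ℂ) • u := by
      rw [hT] at hl
      simp only [LinearMap.smul_apply, LinearMap.add_apply, LinearMap.id_apply] at hl
      have h7 : u + walk ρ z u = (2 : ℂ) • ((l : ℂ) • u) := by
        rw [← hl, smul_smul]; norm_num
      have h8 : walk ρ z u = (2 : ℂ) • ((l : ℂ) • u) - u := by rw [← h7]; abel
      rw [h8]
      push_cast
      module
    have h9 := walk_eig ρ F z hgood u hu hu0 _ h6
    have h10 : |2 * l - 1| * ‖u‖ ≤ ‖u‖ := by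
      have := hwn u
      rw [h6, norm_smul, Complex.norm_real, Real.norm_eq_abs] at this
      exact this
    have hupos : 0 < ‖u‖ := norm_pos_iff.2 hu0
    have h11 : |2 * l - 1| ≤ 1 := by
      by_contra hcon
      push Not at hcon
      nlinarith
    have h12 := abs_le.1 h11
    rw [abs_le]
    constructor <;> linarith [h12.1]) v ((hmem v).2 hv)
  have h6 : ∑ p, ρ (lazyFam z p) v = (4 * (k : ℂ)) • T v := by
    rw [Fintype.sum_prod_type, hT]
    simp only [LinearMap.smul_apply, LinearMap.add_apply, LinearMap.id_apply]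
    rw [walk_apply]
    have : ∀ i, ∑ j, ρ (lazyFam z (i, j)) v = (2 : ℂ) • v + (ρ (z i) v + ρ (z i)⁻¹ v) := by
      intro i
      rw [Fin.sum_univ_four]
      unfold lazyFam
      simp
      module
    simp_rw [this]
    rw [Finset.sum_add_distrib, Finset.sum_const, Finset.card_univ, Fintype.card_fin,
      ← Nat.cast_smul_eq_nsmul ℂ, smul_smul, smul_add, smul_add, smul_smul, smul_smul, smul_smul]
    congr 1
    · congr 1; ring
    · have : 4 * (k : ℂ) * 2⁻¹ * (2 * (k : ℂ))⁻¹ = 1 := by field_simp; norm_num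
      rw [this, one_smul]
  rw [h6, norm_smul, norm_mul, Complex.norm_natCast, Fintype.card_prod, Fintype.card_fin,
    Fintype.card_fin]
  have h7 : ‖(4 : ℂ)‖ = 4 := by simp
  rw [h7]
  push_cast
  calc 4 * (k : ℝ) * ‖T v‖ ≤ 4 * (k : ℝ) * (95 / 100 * ‖v‖) := by gcongr
    _ = _ := by ring

/-- large alternating groups have polylogarithmic expanding families -/
theorem base_exp (hn : Big n) (k : ℕ) (hk : (bigC + 1) * Real.log n ^ 4 ≤ k) :
    HasExp (alternatingGroup (Fin n)) ((4 * k) ^ 90) (1 / 100) := by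
  obtain ⟨F⟩ := exists_pw (Equiv.Perm (Fin n))
  have hkpos : 0 < k := by
    have h1 : (0 : ℝ) < (bigC + 1) * Real.log n ^ 4 := by
      have h2 := bigC_ge
      have h3 : (0 : ℝ) < Real.log n := lt_of_lt_of_le (by norm_num) hn.log_big
      have h6 : (0 : ℝ) < bigC + 1 := by linarith
      positivity
    have : (0 : ℝ) < k := lt_of_lt_of_le h1 hk
    exact_mod_cast this
  have hcount := count_bad hn F k hk
  obtain ⟨z, hz⟩ : ∃ z : Fin k → Alt n, Good F (tupW z) n (1 / 10) := by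
    by_contra hall
    push Not at hall
    have h1 : Nat.card {z : Fin k → Alt n // ¬ Good F (tupW z) n (1 / 10)} =
        Nat.card (Fin k → Alt n) :=
      Nat.card_congr (Equiv.subtypeUnivEquiv hall)
    rw [h1, Nat.card_eq_fintype_card, Fintype.card_fun, Fintype.card_fin] at hcount
    push_cast at hcount
    have hApos : (0 : ℝ) < (Fintype.card (Alt n) : ℝ) ^ k := by
      have : (0 : ℝ) < Fintype.card (Alt n) := by exact_mod_cast Fintype.card_pos
      positivity
    have h2 : (1 : ℝ) ≤ 4 / n := by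
      by_contra hcon
      push Not at hcon
      nlinarith
    have h3 : (1000 : ℝ) ≤ n := by exact_mod_cast hn.n1000
    rw [le_div_iff₀ (by linarith)] at h2
    linarith
  have h1 := HasExp.of (lazy_exp hkpos F z hz)
  rw [Fintype.card_prod, Fintype.card_fin, Fintype.card_fin, mul_comm] at h1
  exact (h1.pow (by norm_num) 90).mono (by norm_num)

end base

end Pool.Agent.Helper15.Pair
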