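import Pool.Agent.Helper15.Pair.Tensor

/-! Representations of powers `I → G`. -/

set_option linter.unusedSectionVars false

namespace Pool.Agent.Helper15.Pair

open Equiv

section coord
variable {I G : Type} [Fintype I] [DecidableEq I] [Group G] [Fintype G]
  {V : Type} [NormedAddCommGroup V] [InnerProductSpace ℂ V] (ρ : Representation ℂ (I → G) V)

/-- restriction to a coordinate -/
def coordRep (i : I) : Representation ℂ G V := ρ.comp (MonoidHom.mulSingle (fun _ => G) i)

theorem coordRep_apply (i : I) (g : G) (v : V) : coordRep ρ i g v = ρ (Pi.mulSingle i g) v := rfl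

/-- `v` is fixed by the coordinates outside `J` and has no invariant part for those inside. -/
structure IsPure (J : Finset I) (v : V) : Prop where
  fix : ∀ i, i ∉ J → ∀ g : G, coordRep ρ i g v = v
  kill : ∀ i ∈ J, ∑ g : G, coordRep ρ i g v = 0

theorem agree {J : Finset I} {v : V} (hv : ∀ i, i ∉ J → ∀ g : G, coordRep ρ i g v = v)
    (a b : I → G) (hab : ∀ i ∈ J, a i = b i) : ρ a v = ρ b v := by
  let H : Subgroup (I → G) :=
    { carrier := {g | ρ g v = v}
      mul_mem' := by
        intro x y hx hy
        simp only [Set.mem_ofPred_eq] at hx hy ⊢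
        rw [rho_mul_apply, hy, hx]
      one_mem' := by simp
      inv_mem' := by
        intro x hx
        simp only [Set.mem_ofPred_eq] at hx ⊢
        conv_lhs => rw [← hx]
        rw [← rho_mul_apply, inv_mul_cancel, map_one]; rfl }
  have h : b⁻¹ * a ∈ H := by
    refine Subgroup.pi_mem_of_mulSingle_mem _ fun i => ?_
    by_cases hi : i ∈ J
    · have : (b⁻¹ * a) i = 1 := by simp [hab i hi]
      rw [this, Pi.mulSingle_one]
      exact H.one_mem
    · exact hv i hi _
  have h2 : ρ (b⁻¹ * a) v = v := h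
  conv_rhs => rw [← h2, ← rho_mul_apply, mul_inv_cancel_left]

theorem sum_coord_comm (i : I) (a : I → G) (v : V) :
    ∑ g, coordRep ρ i g (ρ a v) = ρ a (∑ g, coordRep ρ i g v) := by
  rw [map_sum]
  simp_rw [coordRep_apply, ← rho_mul_apply]
  rw [← Equiv.sum_comp (MulAut.conj (a i)).toEquiv]
  refine Finset.sum_congr rfl fun g _ => ?_
  congr 2
  funext j
  by_cases hj : j = i
  · subst hj
    simp
  · simp [Pi.mulSingle_eq_of_ne hj]

theorem coord_comm {i j : I} (hij : i ≠ j) (g h : G) (v : V) :
    coordRep ρ i g (coordRep ρ j h v) = coordRep ρ j h (coordRep ρ i g v) := by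
  simp_rw [coordRep_apply, ← rho_mul_apply]
  exact congrArg (fun x => ρ x v) (Pi.mulSingle_commute (f := fun _ : I => G) hij g h)

variable {κ : Type} [Fintype κ] [DecidableEq κ]

/-- small supports -/
theorem small_bound [FiniteDimensional ℂ V] (hρ : ∀ g v, ‖ρ g v‖ = ‖v‖) {J : Finset I} {v : V}
    (hv : IsPure ρ J v) {j : I} (hj : j ∈ J) (U : κ → G) (η : ℝ) (hU : Exp G U η) (c₀ : I → κ)
    (q : ℕ) (hc₀ : ∀ k, (Finset.univ.filter (fun i => c₀ i = k)).card = q) :
    (Jᶜ.card : ℝ) * ‖∑ σ : Perm I, ρ (fun i => U (c₀ (σ i))) v‖ ≤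
      (Fintype.card I * η + J.card) * (Fintype.card I).factorial * ‖v‖ := by
  have hcard : Fintype.card I = Fintype.card κ * q := by
    have h1 := Finset.card_eq_sum_card_fiberwise (s := (Finset.univ : Finset I))
      (t := (Finset.univ : Finset κ)) (f := c₀) (fun _ _ => Finset.mem_univ _)
    rw [Finset.card_univ] at h1
    simp_rw [hc₀] at h1
    rw [h1, Finset.sum_const, Finset.card_univ, smul_eq_mul]
  have h1 : (Jᶜ.card : ℂ) • ∑ σ : Perm I, ρ (fun i => U (c₀ (σ i))) v =
      ∑ σ : Perm I, ∑ i ∈ Jᶜ, ρ (Function.update (fun i => U (c₀ (σ i))) j 1)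
        (coordRep ρ j (U (c₀ (σ i))) v) := by
    rw [Finset.sum_comm, Nat.cast_smul_eq_nsmul, ← Finset.sum_const]
    refine Finset.sum_congr rfl fun i hi => ?_
    rw [← Equiv.sum_comp (Equiv.mulRight (swap i j))]
    refine Finset.sum_congr rfl fun σ _ => ?_
    rw [coordRep_apply, ← rho_mul_apply]
    refine agree ρ hv.fix _ _ fun i' hi' => ?_
    have hne : i' ≠ i := by
      rintro rfl
      exact (Finset.mem_compl.1 hi) hi'
    by_cases hij : i' = j
    · subst hij
      simp
    · simp [Function.update_of_ne hij, Pi.mulSingle_eq_of_ne hij, swap_apply_of_ne_of_ne hne hij]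
  have h2 : ∀ σ : Perm I, ‖∑ i ∈ Jᶜ, ρ (Function.update (fun i => U (c₀ (σ i))) j 1)
        (coordRep ρ j (U (c₀ (σ i))) v)‖ ≤ (Fintype.card I * η + J.card) * ‖v‖ := by
    intro σ
    rw [← map_sum, hρ]
    have h3 : ∑ i ∈ Jᶜ, coordRep ρ j (U (c₀ (σ i))) v =
        ∑ i, coordRep ρ j (U (c₀ i)) v - ∑ i ∈ J, coordRep ρ j (U (c₀ (σ i))) v := by
      rw [← Equiv.sum_comp σ (fun i => coordRep ρ j (U (c₀ i)) v),
        ← Finset.sum_add_sum_compl J, add_sub_cancel_left]
    rw [h3]
    refine (norm_sub_le _ _).trans ?_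
    rw [add_mul]
    gcongr
    · have h4 : ∑ i, coordRep ρ j (U (c₀ i)) v = (q : ℂ) • ∑ k, coordRep ρ j (U k) v := by
        rw [← Finset.sum_fiberwise Finset.univ c₀, Finset.smul_sum]
        refine Finset.sum_congr rfl fun k _ => ?_
        rw [Finset.sum_congr rfl (g := fun _ => coordRep ρ j (U k) v) (fun i hi => by
          rw [(Finset.mem_filter.1 hi).2]), Finset.sum_const, hc₀, Nat.cast_smul_eq_nsmul]
      rw [h4, norm_smul, Complex.norm_natCast, hcard]
      have h5 := hU V (coordRep ρ j) (fun g v => hρ _ _) v (hv.kill j hj)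
      calc (q : ℝ) * ‖∑ k, coordRep ρ j (U k) v‖ ≤ q * (η * Fintype.card κ * ‖v‖) := by gcongr
        _ = _ := by push_cast; ring
    · refine (norm_sum_le _ _).trans ?_
      have : ∀ i ∈ J, ‖coordRep ρ j (U (c₀ (σ i))) v‖ = ‖v‖ := fun i _ => hρ _ _
      rw [Finset.sum_congr rfl this, Finset.sum_const, nsmul_eq_mul]
  calc (Jᶜ.card : ℝ) * ‖∑ σ : Perm I, ρ (fun i => U (c₀ (σ i))) v‖ =
        ‖(Jᶜ.card : ℂ) • ∑ σ : Perm I, ρ (fun i => U (c₀ (σ i))) v‖ := by
        rw [norm_smul, Complex.norm_natCast]
    _ ≤ ∑ σ : Perm I, (Fintype.card I * η + J.card) * ‖v‖ := by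
        rw [h1]
        exact (norm_sum_le _ _).trans (Finset.sum_le_sum fun σ _ => h2 σ)
    _ = _ := by
        rw [Finset.sum_const, Finset.card_univ, Fintype.card_perm, nsmul_eq_mul]; ring

theorem sum_update {M : Type} [AddCommMonoid M] (j : I) (f : (I → κ) → M) :
    ∑ c : I → κ, ∑ k, f (Function.update c j k) = Fintype.card κ • ∑ c, f c := by
  have hinv : Function.Involutive
      (fun p : (I → κ) × κ => (Function.update p.1 j p.2, p.1 j)) := by
    intro p
    simp
  have h1 := Equiv.sum_comp hinv.toPerm (fun p : (I → κ) × κ => f p.1)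
  rw [Fintype.sum_prod_type] at h1
  simp only [Function.Involutive.coe_toPerm] at h1
  rw [h1, Fintype.sum_prod_type]
  simp_rw [Finset.sum_const]
  rw [Finset.card_univ, ← Finset.smul_sum]

/-- product over coordinates of twisted averages, coordinates in `s` only -/
noncomputable def twSum (U : κ → G) (z : κ → ℂ) (s : Finset I) (v : V) : V :=
  ∑ c : I → κ, (∏ i ∈ s, z (c i)) • ρ (fun i => if i ∈ s then U (c i) else 1) v

theorem twSum_kill (U : κ → G) (z : κ → ℂ) (s : Finset I) (v : V) (i : I)
    (hi : ∑ g : G, coordRep ρ i g v = 0) : ∑ g : G, coordRep ρ i g (twSum ρ U z s v) = 0 := by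
  unfold twSum
  simp_rw [map_sum, map_smul]
  rw [Finset.sum_comm]
  refine Finset.sum_eq_zero fun c _ => ?_
  rw [← Finset.smul_sum, sum_coord_comm, hi, map_zero, smul_zero]

theorem twSum_insert (U : κ → G) (z : κ → ℂ) (s : Finset I) (v : V) (j : I) (hj : j ∉ s) :
    (Fintype.card κ : ℂ) • twSum ρ U z (insert j s) v =
      ∑ k, z k • coordRep ρ j (U k) (twSum ρ U z s v) := by
  unfold twSum
  rw [Nat.cast_smul_eq_nsmul, ← sum_update j, Finset.sum_comm]
  refine Finset.sum_congr rfl fun k _ => ?_
  rw [map_sum, Finset.smul_sum]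
  refine Finset.sum_congr rfl fun c _ => ?_
  rw [map_smul, smul_smul, Finset.prod_insert hj, Function.update_self]
  congr 1
  · congr 1
    refine Finset.prod_congr rfl fun i hi => ?_
    rw [Function.update_of_ne]
    rintro rfl
    exact hj hi
  · rw [coordRep_apply, ← rho_mul_apply]
    congr 2
    funext i
    by_cases hij : i = j
    · subst hij
      simp [hj]
    · simp [hij]

theorem twSum_le [FiniteDimensional ℂ V] (hρ : ∀ g v, ‖ρ g v‖ = ‖v‖) {J : Finset I} {v : V}
    (hv : IsPure ρ J v) (U : κ → G) (η : ℝ) (hη : 0 ≤ η) (hU : Exp G U η) (hperf : Perf G)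
    (hκ : 0 < Fintype.card κ)
    (z : κ → ℂ) (hz : ∀ k, ‖z k‖ ≤ 1) (s : Finset I) :
    ‖twSum ρ U z s v‖ ≤ (Fintype.card κ : ℝ) ^ (Fintype.card I) *
      Real.sqrt (1 / 2 + η) ^ (s ∩ J).card * ‖v‖ := by
  induction s using Finset.induction_on with
  | empty =>
    unfold twSum
    simp only [Finset.prod_empty, Finset.notMem_empty, if_false, one_smul]
    have h1 : (fun _ : I => (1 : G)) = 1 := rfl
    rw [h1, map_one, Finset.sum_const, Finset.card_univ, Fintype.card_fun]
    simp only [Module.End.one_apply, Finset.empty_inter, Finset.card_empty, pow_zero, mul_one]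
    rw [← Nat.cast_smul_eq_nsmul ℂ, norm_smul, Complex.norm_natCast]
    push_cast
    exact le_rfl
  | insert j s hj ih =>
    have hκr : (0 : ℝ) < Fintype.card κ := by exact_mod_cast hκ
    have h1 := twSum_insert ρ U z s v j hj
    have h2 : (Fintype.card κ : ℝ) * ‖twSum ρ U z (insert j s) v‖ =
        ‖∑ k, z k • coordRep ρ j (U k) (twSum ρ U z s v)‖ := by
      rw [← h1, norm_smul, Complex.norm_natCast]
    by_cases hjJ : j ∈ J
    · have h3 := twist_le (coordRep ρ j) U η hU hη hperf (fun g v => hρ _ _) z hz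
        (twSum ρ U z s v) (twSum_kill ρ U z s v j (hv.kill j hjJ))
      rw [← h2] at h3
      have h4 : ‖twSum ρ U z (insert j s) v‖ ≤ Real.sqrt (1 / 2 + η) * ‖twSum ρ U z s v‖ := by
        have h5 : (Fintype.card κ : ℝ) * ‖twSum ρ U z (insert j s) v‖ ≤
            Fintype.card κ * (Real.sqrt (1 / 2 + η) * ‖twSum ρ U z s v‖) := by
          refine h3.trans (le_of_eq ?_); ring
        exact le_of_mul_le_mul_left h5 hκr
      refine h4.trans ?_
      rw [Finset.insert_inter_of_mem hjJ, Finset.card_insert_of_notMem (by simp [hj]), pow_succ]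
      calc Real.sqrt (1 / 2 + η) * ‖twSum ρ U z s v‖ ≤ Real.sqrt (1 / 2 + η) *
            ((Fintype.card κ : ℝ) ^ (Fintype.card I) *
              Real.sqrt (1 / 2 + η) ^ (s ∩ J).card * ‖v‖) := by gcongr
        _ = _ := by ring
    · rw [Finset.insert_inter_of_notMem hjJ]
      refine le_trans ?_ ih
      have h3 : ‖∑ k, z k • coordRep ρ j (U k) (twSum ρ U z s v)‖ ≤
          Fintype.card κ * ‖twSum ρ U z s v‖ := by
        refine (norm_sum_le _ _).trans ?_
        calc ∑ k, ‖z k • coordRep ρ j (U k) (twSum ρ U z s v)‖ ≤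
              ∑ _k : κ, ‖twSum ρ U z s v‖ := by
              refine Finset.sum_le_sum fun k _ => ?_
              rw [norm_smul, coordRep_apply, hρ]
              exact mul_le_of_le_one_left (norm_nonneg _) (hz k)
          _ = _ := by rw [Finset.sum_const, Finset.card_univ, nsmul_eq_mul]
      rw [← h2] at h3
      exact le_of_mul_le_mul_left h3 hκr

/-- extension from pure vectors to all vectors without invariant part -/
theorem of_pure (hρ : ∀ g v, ‖ρ g v‖ = ‖v‖) (T : V →ₗ[ℂ] V)
    (hT : ∀ i v, T (∑ g : G, coordRep ρ i g v) = ∑ g : G, coordRep ρ i g (T v)) (c : ℝ)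
    (hc : 0 ≤ c) (hpure : ∀ J : Finset I, J.Nonempty → ∀ v, IsPure ρ J v → ‖T v‖ ≤ c * ‖v‖)
    (v : V) (hv : ∑ g, ρ g v = 0) : ‖T v‖ ≤ c * ‖v‖ := by
  have key : ∀ s : Finset I, ∀ v : V, ∑ g, ρ g v = 0 →
      (∀ i, i ∉ s → (∀ g : G, coordRep ρ i g v = v) ∨ ∑ g : G, coordRep ρ i g v = 0) →
      ‖T v‖ ≤ c * ‖v‖ := by
    intro s
    induction s using Finset.induction_on with
    | empty =>
      intro v hv hs
      classical
      set J : Finset I := Finset.univ.filter fun i => ∑ g : G, coordRep ρ i g v = 0 with hJ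
      have hp : IsPure ρ J v := by
        constructor
        · intro i hi g
          rcases hs i (Finset.notMem_empty i) with h | h
          · exact h g
          · exact absurd (by rw [hJ, Finset.mem_filter]; exact ⟨Finset.mem_univ i, h⟩) hi
        · intro i hi
          exact (Finset.mem_filter.1 hi).2
      rcases J.eq_empty_or_nonempty with h0 | h0
      · have h1 : ∀ g, ρ g v = v := by
          intro g
          have h2 := agree ρ hp.fix g 1 (by rw [h0]; simp)
          rw [h2, map_one]; rfl
        simp_rw [h1] at hv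
        rw [Finset.sum_const, Finset.card_univ, ← Nat.cast_smul_eq_nsmul ℂ] at hv
        rcases smul_eq_zero.1 hv with h | h
        · exact absurd h (by exact_mod_cast Fintype.card_ne_zero)
        · rw [h]; simp
      · exact hpure J h0 v hp
    | insert j s hj ih =>
      intro v hv hs
      set w := ((Fintype.card G : ℂ)⁻¹ • ∑ g, coordRep ρ j g v) with hw
      have hw2 : nonInv (coordRep ρ j) v = v - w := rfl
      have hTw : T w = (Fintype.card G : ℂ)⁻¹ • ∑ g, coordRep ρ j g (T v) := by
        rw [hw, map_smul, hT]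
      have hTw2 : T (v - w) = nonInv (coordRep ρ j) (T v) := by
        rw [map_sub, hTw]; rfl
      have hsw : ∑ g, ρ g w = 0 := by
        rw [hw]
        simp_rw [map_smul, map_sum]
        rw [← Finset.smul_sum, Finset.sum_comm]
        have : ∀ h : G, ∑ g, ρ g (coordRep ρ j h v) = 0 := by
          intro h
          rw [coordRep_apply, rho_sum_right, hv]
        simp [this]
      have hfw : ∀ i, i ≠ j → (∀ g : G, coordRep ρ i g v = v) →
          ∀ g : G, coordRep ρ i g w = w := by
        intro i hij h g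
        rw [hw, map_smul, map_sum]
        simp_rw [coord_comm ρ hij, h]
      have hkw : ∀ i, i ≠ j → (∑ g : G, coordRep ρ i g v = 0) →
          ∑ g : G, coordRep ρ i g w = 0 := by
        intro i hij h
        rw [hw]
        simp_rw [map_smul, map_sum]
        rw [← Finset.smul_sum, Finset.sum_comm]
        have : ∀ h' : G, ∑ g, coordRep ρ i g (coordRep ρ j h' v) = 0 := by
          intro h'
          simp_rw [coord_comm ρ hij]
          rw [← map_sum, h, map_zero]
        simp [this]
      have h1 : ‖T w‖ ≤ c * ‖w‖ := by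
        refine ih w hsw fun i hi => ?_
        by_cases hij : i = j
        · subst hij
          left
          intro g
          rw [hw, map_smul, rho_sum_left]
        · rcases hs i (by simp [hij, hi]) with h | h
          · exact Or.inl (hfw i hij h)
          · exact Or.inr (hkw i hij h)
      have h2 : ‖T (v - w)‖ ≤ c * ‖v - w‖ := by
        refine ih (v - w) ?_ fun i hi => ?_
        · simp_rw [map_sub]
          rw [Finset.sum_sub_distrib, hv, hsw, sub_zero]
        by_cases hij : i = j
        · subst hij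
          right
          exact sum_nonInv (coordRep ρ i) v
        · rcases hs i (by simp [hij, hi]) with h | h
          · left
            intro g
            rw [map_sub, h g, hfw i hij h g]
          · right
            simp_rw [map_sub]
            rw [Finset.sum_sub_distrib, h, hkw i hij h, sub_zero]
      have h3 := norm_sq_split (coordRep ρ j) (fun g v => hρ _ _) (T v)
      have h4 := norm_sq_split (coordRep ρ j) (fun g v => hρ _ _) v
      rw [← hTw, ← hTw2] at h3
      rw [← hw, hw2] at h4
      have h5 : ‖T v‖ ^ 2 ≤ (c * ‖v‖) ^ 2 := by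
        rw [h3, mul_pow, h4, mul_add, ← mul_pow, ← mul_pow]
        gcongr
      exact (abs_le_of_sq_le_sq' h5 (by positivity)).2
  exact key Finset.univ v hv fun i hi => absurd (Finset.mem_univ i) hi

end coord

end Pool.Agent.Helper15.Pair
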