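import Pool.Agent.Helper15.Pair.Len

/-! Two generators carrying many elements, and covering by shifted blocks. -/

set_option linter.unusedSectionVars false

namespace Pool.Agent.Helper15.Pair

open Equiv

theorem shift_even {N a' : ℕ} [NeZero N] :
    Perm.sign (Equiv.addRight (Fin.ofNat N (2 * a'))) = 1 := by
  have h1 : Equiv.addRight (Fin.ofNat N (2 * a')) =
      Equiv.addRight (Fin.ofNat N a') * Equiv.addRight (Fin.ofNat N a') := by
    ext i
    simp only [Equiv.coe_addRight, Perm.mul_apply]
    rw [add_assoc]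
    congr 2
    ext
    simp only [Fin.ofNat_eq_cast, Fin.val_natCast, Fin.val_add]
    rw [two_mul, Nat.add_mod]
  rw [h1, Perm.sign_mul, Int.units_mul_self]

theorem two_gen {N M a' s : ℕ} [NeZero N] (hM2 : 2 ≤ M) (hM : M ≤ 3 * (2 * a'))
    (hN : 4 ^ (s + 3) * (2 * a') ≤ N) (S : Fin s → Perm (Fin N))
    (hS : ∀ i (t : Fin N), M ≤ t.val → S i t = t) :
    ∃ x y : Perm (Fin N), x ∈ alternatingGroup (Fin N) ∧ y ∈ alternatingGroup (Fin N) ∧
      y = Equiv.addRight (Fin.ofNat N (2 * a')) ∧ ∀ L : Perm (Fin N) → ℝ, IsLen L →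
        ∀ i j, L (S i * S j * (S i)⁻¹ * (S j)⁻¹) ≤ 6 * 4 ^ (s + 1) * (L x + L y) := by
  have hMN : M < N := by
    have h1 : 64 ≤ 4 ^ (s + 3) := by
      rw [pow_add]
      have : 1 ≤ 4 ^ s := Nat.one_le_pow _ _ (by norm_num)
      omega
    have h2 : 64 * (2 * a') ≤ 4 ^ (s + 3) * (2 * a') := Nat.mul_le_mul_right _ h1
    omega
  set y : Perm (Fin N) := Equiv.addRight (Fin.ofNat N (2 * a')) with hy
  set u0 : Fin N := ⟨0, by omega⟩ with hu0
  set u1 : Fin N := ⟨1, by omega⟩ with hu1
  have hu : u0 ≠ u1 := by
    intro h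
    have := congrArg Fin.val h
    simp [hu0, hu1] at this
  obtain ⟨p, hp1, hp2⟩ : ∃ p : Perm (Fin N), (∀ t : Fin N, M ≤ t.val → p t = t) ∧
      Perm.sign p * ∏ i, Perm.sign (S i) = 1 := by
    rcases Int.units_eq_one_or (∏ i, Perm.sign (S i)) with h | h
    · exact ⟨1, fun t _ => rfl, by rw [h]; simp⟩
    · refine ⟨swap u0 u1, fun t ht => ?_, by rw [h, Perm.sign_swap hu]; rfl⟩
      refine swap_apply_of_ne_of_ne ?_ ?_
      · rintro rfl
        simp [hu0] at ht
        omega
      · rintro rfl
        simp [hu1] at ht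
        omega
  set S' : Fin (s + 1) → Perm (Fin N) := Fin.cons p S with hS'
  set x : Perm (Fin N) := (List.ofFn fun i : Fin (s + 1) =>
      y ^ (4 ^ (i.val + 1)) * S' i * (y ^ (4 ^ (i.val + 1)))⁻¹).prod with hx
  have hyA : Perm.sign y = 1 := shift_even
  have hxA : Perm.sign x = 1 := by
    rw [hx, map_list_prod, List.map_ofFn]
    have h1 : (Perm.sign ∘ fun i : Fin (s + 1) =>
        y ^ (4 ^ (i.val + 1)) * S' i * (y ^ (4 ^ (i.val + 1)))⁻¹) =
        fun i => Perm.sign (S' i) := by
      funext i
      simp only [Function.comp, Perm.sign_mul, Perm.sign_inv, map_pow, hyA, one_pow, one_mul,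
        mul_one]
    rw [h1, List.prod_ofFn, Fin.prod_univ_succ, hS']
    simpa using hp2
  refine ⟨x, y, Perm.mem_alternatingGroup.2 hxA, Perm.mem_alternatingGroup.2 hyA, rfl, ?_⟩
  intro L hL
  have hS'M : ∀ i (t : Fin N), M ≤ t.val → S' i t = t := by
    intro i
    refine Fin.cases ?_ (fun i => ?_) i
    · exact hp1
    · exact hS i
  have key : ∀ i j, i ≠ j → L (S' i * S' j * (S' i)⁻¹ * (S' j)⁻¹) ≤
      6 * 4 ^ (s + 1) * (L x + L y) := by
    intro i j hij
    obtain ⟨t, ht, heq⟩ := Pool.Agent.Helper62.PairD.two_gen_words (s := s + 1) hM hN S' hS'M y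
      hy x hx i j hij
    set e := 4 ^ (i.val + 1) with he
    have he2 : (e : ℝ) ≤ 4 ^ (s + 1) := by
      have : e ≤ 4 ^ (s + 1) := Nat.pow_le_pow_right (by norm_num) (by omega)
      exact_mod_cast this
    have ht2 : |(t : ℝ)| ≤ 4 ^ (s + 1) := by exact_mod_cast ht
    have h1 := hL.of_conj (y ^ e) (S' i * S' j * (S' i)⁻¹ * (S' j)⁻¹)
    rw [← heq] at h1
    have h2 := hL.comm x (y ^ t * x * (y ^ t)⁻¹)
    have h3 := hL.conj (y ^ t) x
    have h4 := hL.zpow y t
    have h5 := hL.pow y e
    have hx0 := hL.nonneg x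
    have hy0 := hL.nonneg y
    have h6 : |(t : ℝ)| * L y ≤ 4 ^ (s + 1) * L y := by gcongr
    have h7 : (e : ℝ) * L y ≤ 4 ^ (s + 1) * L y := by gcongr
    have h8 : L x ≤ 4 ^ (s + 1) * L x := by
      have : (1 : ℝ) ≤ 4 ^ (s + 1) := one_le_pow₀ (by norm_num)
      nlinarith
    nlinarith
  intro i j
  by_cases hij : i = j
  · subst hij
    have h1 : S i * S i * (S i)⁻¹ * (S i)⁻¹ = 1 := by group
    rw [h1, hL.one]
    have hx0 := hL.nonneg x
    have hy0 := hL.nonneg y
    positivity
  · have := key i.succ j.succ (fun h => hij (Fin.succ_injective _ h))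
    simpa [hS'] using this

/-- covering by shifted blocks -/
theorem cover {N M a : ℕ} [NeZero N] (hMa : 2 * a + 2 ≤ M) (y : Perm (Fin N))
    (hy : y = Equiv.addRight (Fin.ofNat N a)) (L : Perm (Fin N) → ℝ) (hL : IsLen L) (d : ℝ)
    (hblk : ∀ g : Perm (Fin N), Perm.sign g = 1 → (∀ t : Fin N, M ≤ t.val → g t = t) → L g ≤ d)
    (J : ℕ) (hJ : N ≤ J * a) (g : Perm (Fin N)) (hg : Perm.sign g = 1) :
    L g ≤ (d + 2 * J * L y) * 2 ^ (J + 1) := by
  have hd : 0 ≤ d := by
    have := hblk 1 (Perm.sign_one) (fun t _ => rfl)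
    rwa [hL.one] at this
  have hy0 := hL.nonneg y
  set e : ℝ := d + 2 * J * L y with he
  have he0 : 0 ≤ e := by positivity
  have hshift : ∀ j, j ≤ J → ∀ g : Perm (Fin N), Perm.sign g = 1 →
      g.support ⊆ (Finset.univ.filter fun i : Fin N => ((y ^ j)⁻¹ i).val < M) → L g ≤ e := by
    intro j hj g hg hs
    have h1 := hL.of_conj (y ^ j)⁻¹ g
    have h2 := hblk ((y ^ j)⁻¹ * g * (y ^ j)⁻¹⁻¹) (by
      rw [Perm.sign_mul, Perm.sign_mul, Perm.sign_inv (y ^ j)⁻¹, hg]
      rw [mul_one, Int.units_mul_self]) (by
      intro t ht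
      by_contra hne
      have h3 : g ((y ^ j) t) ≠ (y ^ j) t := by
        intro h
        apply hne
        rw [inv_inv, Perm.mul_apply, Perm.mul_apply, h]
        simp
      have h4 := hs (Perm.mem_support.2 h3)
      rw [Finset.mem_filter] at h4
      have h5 := h4.2
      simp at h5
      omega)
    have h3 : L (y ^ j)⁻¹ ≤ j * L y := by
      rw [hL.inv]; exact hL.pow y j
    have h4 : (j : ℝ) * L y ≤ J * L y := by
      have : (j : ℝ) ≤ J := by exact_mod_cast hj
      gcongr
    rw [he]
    linarith
  have hval : ∀ j (i : Fin N), j * a ≤ i.val → (((y ^ j)⁻¹ i).val) = i.val - j * a := by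
    intro j i hi
    set t : Fin N := ⟨i.val - j * a, by have := i.isLt; omega⟩ with ht
    have h1 := Pool.Agent.Helper62.PairD.y_pow_val y hy j t
    have h2 : (y ^ j) t = i := by
      ext
      rw [h1, ht]
      simp only
      rw [Nat.sub_add_cancel hi, Nat.mod_eq_of_lt i.isLt]
    rw [← h2, ← Perm.mul_apply, inv_mul_cancel, Perm.one_apply, h2]
  have key : ∀ j, j ≤ J → ∀ g : Perm (Fin N), Perm.sign g = 1 →
      g.support ⊆ (Finset.univ.filter fun i : Fin N => i.val < j * a + M) →
      L g ≤ e * (2 ^ (j + 1) - 1) := by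
    intro j
    induction j with
    | zero =>
      intro _ g hg hs
      have h1 := hblk g hg (by
        intro t ht
        by_contra hne
        have h4 := hs (Perm.mem_support.2 hne)
        rw [Finset.mem_filter] at h4
        omega)
      have h2 : d ≤ e := by
        rw [he]
        have : 0 ≤ 2 * (J : ℝ) * L y := by positivity
        linarith
      norm_num
      linarith
    | succ j ih =>
      intro hj g hg hs
      have ih' := ih (by omega)
      have hle : e * (2 ^ (j + 1) - 1) ≤ e * (2 ^ (j + 1 + 1) - 1) := by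
        refine mul_le_mul_of_nonneg_left ?_ he0
        rw [pow_succ (2 : ℝ) (j + 1)]
        have : (0 : ℝ) < 2 ^ (j + 1) := by positivity
        linarith
      by_cases hcase : N ≤ j * a + M
      · refine (ih' g hg fun i _ => ?_).trans hle
        rw [Finset.mem_filter]
        exact ⟨Finset.mem_univ i, lt_of_lt_of_le i.isLt hcase⟩
      · push Not at hcase
        have hja : (j + 1) * a = j * a + a := by ring
        have h1 := Pool.Agent.H29.Pair.union_step L hL.mul
          (Finset.univ.filter fun i : Fin N => i.val < j * a + M)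
          (Finset.univ.filter fun i : Fin N => ((y ^ (j + 1))⁻¹ i).val < M)
          (e * (2 ^ (j + 1) - 1)) e ?_ ih' (hshift (j + 1) hj) g hg ?_
        · refine h1.trans (le_of_eq ?_)
          rw [pow_succ (2 : ℝ) (j + 1)]
          ring
        · have c1 : ((Finset.univ.filter fun i : Fin N => ((y ^ (j + 1))⁻¹ i).val < M) \
              (Finset.univ.filter fun i : Fin N => i.val < j * a + M)).card ≤ a := by
            have : a = (Finset.Ico (j * a + M) ((j + 1) * a + M)).card := by
              rw [Nat.card_Ico, hja]; omega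
            conv_rhs => rw [this]
            rw [← Finset.card_image_of_injective _ (Fin.val_injective)]
            refine Finset.card_le_card fun v hv => ?_
            obtain ⟨i, hi, rfl⟩ := Finset.mem_image.1 hv
            rw [Finset.mem_sdiff, Finset.mem_filter, Finset.mem_filter] at hi
            obtain ⟨⟨_, hi1⟩, hi2⟩ := hi
            have hi3 : j * a + M ≤ i.val := by
              by_contra hcon
              exact hi2 ⟨Finset.mem_univ i, by omega⟩
            rw [hval (j + 1) i (by rw [hja]; omega)] at hi1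
            rw [Finset.mem_Ico]
            constructor
            · exact hi3
            · omega
          have c2 : M - a ≤ ((Finset.univ.filter fun i : Fin N => i.val < j * a + M) ∩
              (Finset.univ.filter fun i : Fin N => ((y ^ (j + 1))⁻¹ i).val < M)).card := by
            have : M - a = (Finset.Ico ((j + 1) * a) (j * a + M)).card := by
              rw [Nat.card_Ico, hja]; omega
            rw [this]
            refine le_trans (Finset.card_le_card fun v hv => ?_) (Finset.card_image_le
              (f := Fin.val))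
            rw [Finset.mem_Ico] at hv
            rw [Finset.mem_image]
            refine ⟨⟨v, by omega⟩, ?_, rfl⟩
            rw [Finset.mem_inter, Finset.mem_filter, Finset.mem_filter]
            refine ⟨⟨Finset.mem_univ _, hv.2⟩, Finset.mem_univ _, ?_⟩
            rw [hval (j + 1) ⟨v, by omega⟩ hv.1]
            simp only
            omega
          omega
        · intro i hi
          have h2 := hs hi
          rw [Finset.mem_filter] at h2
          rw [Finset.mem_union, Finset.mem_filter, Finset.mem_filter]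
          by_cases h3 : i.val < j * a + M
          · exact Or.inl ⟨Finset.mem_univ i, h3⟩
          · right
            refine ⟨Finset.mem_univ i, ?_⟩
            rw [hval (j + 1) i (by rw [hja]; omega)]
            omega
  have h1 := key J le_rfl g hg (fun i _ => by
    rw [Finset.mem_filter]
    exact ⟨Finset.mem_univ i, by have := i.isLt; omega⟩)
  refine h1.trans ?_
  refine mul_le_mul_of_nonneg_left ?_ he0
  linarith

end Pool.Agent.Helper15.Pair
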