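import Pool.Agent.Helper15.Pair.Grow
import Pool.Agent.Helper15.Pair.TwoGen
import Pool.Agent.Helper62.PairA
import Pool.Agent.Helper9.Pair.Routing

/-! From the generators of the grid group to all even permutations of the grid. -/

set_option linter.unusedSectionVars false

namespace Pool.Agent.Helper15.Pair

open Equiv

/-- the same data as `RR`, on the square grid -/
def GG (b m K : ℕ) : Prop :=
  ∃ (G : Type) (_ : Group G) (_ : Fintype G) (φ : G →* Perm (Fin m × (Fin b × Fin m))),
    Perf G ∧ HasExp G K (1 / 100) ∧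
      ∀ π : Fin m → Perm (Fin b × Fin m), (∀ j, Perm.sign (π j) = 1) →
        ∃ g, φ g = prodCongrRight π

theorem GG.of {b m K : ℕ} (h : RR (b * m) m K) : GG b m K := by
  obtain ⟨G, iG, fG, φ, hperf, hU, hφ⟩ := h
  set e0 : Fin m × (Fin b × Fin m) ≃ Fin m × Fin (b * m) :=
    Equiv.prodCongr (Equiv.refl _) finProdFinEquiv with he0
  refine ⟨G, iG, fG, (e0.symm.permCongrHom.toMonoidHom).comp φ, hperf, hU, ?_⟩
  intro π hπ
  obtain ⟨g, hg⟩ := hφ (fun j => finProdFinEquiv.permCongr (π j)) (fun j => by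
    rw [Perm.sign_permCongr]; exact hπ j)
  refine ⟨g, ?_⟩
  change e0.symm.permCongr (φ g) = _
  rw [hg]
  refine Equiv.ext fun x => ?_
  obtain ⟨i, j⟩ := x
  rw [Equiv.permCongr_apply]
  simp [he0]

theorem sign_of_perf {G : Type} [Group G] (hperf : Perf G) {α : Type} [Fintype α]
    [DecidableEq α] (φ : G →* Perm α) (g : G) : Perm.sign (φ g) = 1 := by
  have h1 := hperf ((Units.map (Int.castRingHom ℂ).toMonoidHom).comp (Perm.sign.comp φ)) g
  rcases Int.units_eq_one_or (Perm.sign (φ g)) with h | h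
  · exact h
  · exfalso
    have h2 := congrArg Units.val h1
    simp [h] at h2
    norm_num at h2

section grid
variable {N : ℕ} {V : Type} [NormedAddCommGroup V] [InnerProductSpace ℂ V]
  [FiniteDimensional ℂ V] (ρ : Representation ℂ (alternatingGroup (Fin N)) V)

/-- almost invariance under the generators gives almost invariance under the group -/
theorem hom_bound (hρ : ∀ g v, ‖ρ g v‖ = ‖v‖) (v : V) {G : Type} [Group G] [Fintype G] {K : ℕ}
    (hK : 0 < K) (U : Fin K → G) (hU : Exp G U (1 / 100)) (hperf : Perf G)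
    (ψ : G →* Perm (Fin N)) (d : ℝ) (hd : ∀ k, len ρ v (ψ (U k)) ≤ d) (g : G) :
    len ρ v (ψ g) ≤ 3 * d := by
  have hmem : ∀ g, ψ g ∈ alternatingGroup (Fin N) := fun g =>
    Perm.mem_alternatingGroup.2 (sign_of_perf hperf ψ g)
  set Φ : G →* alternatingGroup (Fin N) := ψ.codRestrict (alternatingGroup (Fin N)) hmem with hΦ
  have h1 := gap_use hK U hU (ρ.comp Φ) (fun g v => hρ _ _) v d (fun k => by
    have := hd k
    rw [len_of_mem ρ v _ (hmem _)] at this
    exact this) g
  rw [len_of_mem ρ v _ (hmem _)]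
  exact h1

/-- all even permutations of the grid almost fix `v` -/
theorem grid_bound (hρ : ∀ g v, ‖ρ g v‖ = ‖v‖) (v : V) {G : Type} [Group G] [Fintype G]
    {K b m : ℕ} (hb : 2 ≤ b) (hK : 0 < K) (U : Fin K → G) (hU : Exp G U (1 / 100))
    (hperf : Perf G) (φ : G →* Perm (Fin m × (Fin b × Fin m)))
    (hφ : ∀ π : Fin m → Perm (Fin b × Fin m), (∀ j, Perm.sign (π j) = 1) →
        ∃ g, φ g = prodCongrRight π)
    (E : Perm (Fin m × (Fin b × Fin m)) →* Perm (Fin N)) (d : ℝ)
    (hd1 : ∀ k, len ρ v (E (φ (U k))) ≤ d)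
    (hd2 : ∀ k, len ρ v (E (flipE m b * φ (U k) * (flipE m b)⁻¹)) ≤ d)
    (g : Perm (Fin m × (Fin b × Fin m))) (hg : Perm.sign g = 1) :
    len ρ v (E g) ≤ 18 * d := by
  have h1 := routing hb (fun h => len ρ v (E h)) (3 * d)
    (fun g h => by
      simp only [map_mul]
      exact (len_isLen ρ hρ v).mul _ _)
    (fun π hπ => by
      obtain ⟨g, hg⟩ := hφ π hπ
      rw [← hg]
      exact hom_bound ρ hρ v hK U hU hperf (E.comp φ) d hd1 g)
    (fun π hπ => by
      obtain ⟨g, hg⟩ := hφ π hπ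
      rw [← hg]
      exact hom_bound ρ hρ v hK U hU hperf
        ((E.comp (MulAut.conj (flipE m b)).toMonoidHom).comp φ) d hd2 g)
    g hg
  linarith

end grid

end Pool.Agent.Helper15.Pair
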