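import Pool.Agent.Helper15.Pair.Rec

/-! Growth estimates and the end of the recursion. -/

set_option linter.unusedSectionVars false

namespace Pool.Agent.Helper15.Pair

open Filter Pool.Agent.Helper15.An

/-- number of random elements used for `A_n` -/
noncomputable def kk (n : ℕ) : ℕ := ⌈(bigC + 1) * Real.log n ^ 4⌉₊

theorem kk_ge (n : ℕ) : (bigC + 1) * Real.log n ^ 4 ≤ kk n := Nat.le_ceil _

theorem kk_pos {n : ℕ} (hn : Big n) : 1 ≤ kk n := by
  have h1 : (0 : ℝ) < (bigC + 1) * Real.log n ^ 4 := by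
    have h2 := bigC_ge
    have h3 : (0 : ℝ) < Real.log n := lt_of_lt_of_le (by norm_num) hn.log_big
    have h6 : (0 : ℝ) < bigC + 1 := by linarith
    positivity
  exact Nat.ceil_pos.2 h1

theorem grow (p : ℕ) (C : ℝ) (hC : 0 ≤ C) :
    ∀ᶠ n : ℕ in atTop, C * (4 * (kk n : ℝ)) ^ p ≤ n := by
  have hb : (0 : ℝ) ≤ bigC := le_trans (by norm_num) bigC_ge
  set B : ℝ := C * (4 * (bigC + 2)) ^ p with hB
  have hB0 : 0 ≤ B := by positivity
  have h1 : (fun x : ℝ => Real.log x ^ (4 * p)) =o[atTop] (id : ℝ → ℝ) :=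
    Real.isLittleO_pow_log_id_atTop
  have h2 : ∀ᶠ x : ℝ in atTop, ‖Real.log x ^ (4 * p)‖ ≤ (1 / (B + 1)) * ‖id x‖ :=
    h1.def (by positivity)
  have h3 : ∀ᶠ n : ℕ in atTop,
      ‖Real.log (n : ℝ) ^ (4 * p)‖ ≤ (1 / (B + 1)) * ‖id (n : ℝ)‖ :=
    tendsto_natCast_atTop_atTop.eventually h2
  filter_upwards [h3, eventually_big] with n hn hbig
  have hL : (1 : ℝ) ≤ Real.log n := le_trans (by norm_num) hbig.log_big
  have hL4 : (1 : ℝ) ≤ Real.log n ^ 4 := one_le_pow₀ hL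
  have h4 : (kk n : ℝ) ≤ (bigC + 2) * Real.log n ^ 4 := by
    have h5 : (kk n : ℝ) < (bigC + 1) * Real.log n ^ 4 + 1 :=
      Nat.ceil_lt_add_one (by positivity)
    nlinarith
  have h6 : (4 * (kk n : ℝ)) ^ p ≤ (4 * (bigC + 2)) ^ p * Real.log n ^ (4 * p) := by
    rw [pow_mul, ← mul_pow]
    refine pow_le_pow_left₀ (by positivity) ?_ p
    linarith
  rw [Real.norm_of_nonneg (by positivity), id, Real.norm_of_nonneg (by positivity)] at hn
  calc C * (4 * (kk n : ℝ)) ^ p ≤ C * ((4 * (bigC + 2)) ^ p * Real.log n ^ (4 * p)) := by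
        gcongr
    _ = B * Real.log n ^ (4 * p) := by rw [hB]; ring
    _ ≤ B * ((1 / (B + 1)) * n) := by gcongr
    _ = (B / (B + 1)) * n := by ring
    _ ≤ 1 * n := by
        gcongr
        rw [div_le_one (by positivity)]
        linarith
    _ = n := one_mul _

/-- number of elements after one step -/
noncomputable def DD (n : ℕ) : ℕ := (4 * kk n) ^ 90

/-- number of elements of the next family -/
noncomputable def ff (K : ℕ) : ℕ := DD (K * qq) * DD (K * qq) * (DD (K * qq) * DD (K * qq))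

theorem ff_eq (K : ℕ) : ff K = (4 * kk (K * qq)) ^ 360 := by
  unfold ff DD
  rw [← pow_add, ← pow_add]

theorem exists_threshold : ∃ Ks : ℕ, 1 ≤ Ks ∧ ∀ K, Ks ≤ K →
    Big (K * qq) ∧ qq * ff K ^ 2 ≤ K := by
  have h1 := grow 720 ((qq : ℝ) ^ 2) (by positivity)
  obtain ⟨N1, hN1⟩ := eventually_atTop.1 (h1.and eventually_big)
  refine ⟨N1 + 1, by omega, fun K hK => ?_⟩
  have hqq : 1 ≤ qq := by rw [qq_eq]; norm_num
  have hle : N1 ≤ K * qq := by nlinarith
  obtain ⟨h2, h3⟩ := hN1 _ hle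
  refine ⟨h3, ?_⟩
  have h4 : (qq : ℝ) * (ff K : ℝ) ^ 2 ≤ K := by
    have h5 : ((ff K : ℕ) : ℝ) ^ 2 = (4 * (kk (K * qq) : ℝ)) ^ 720 := by
      rw [ff_eq]; push_cast; rw [← pow_mul]
    rw [h5]
    have hq0 : (0 : ℝ) < qq := by exact_mod_cast hqq
    have h6 : (qq : ℝ) * (qq * (4 * (kk (K * qq) : ℝ)) ^ 720) ≤ qq * K := by
      push_cast at h2
      linarith
    exact le_of_mul_le_mul_left h6 hq0
  exact_mod_cast h4

/-- the recursion -/
theorem reduce : ∃ Ks : ℕ, 1 ≤ Ks ∧ ∀ K, 1 ≤ K → ∃ m' K', 1 ≤ m' ∧ m' ≤ K ^ 2 ∧ 1 ≤ K' ∧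
    K' ≤ Ks ∧ ∀ n0 m, RR n0 m K → RR n0 (m' * m) K' := by
  obtain ⟨Ks, hKs1, hKs⟩ := exists_threshold
  refine ⟨Ks, hKs1, fun K => ?_⟩
  induction K using Nat.strong_induction_on with
  | _ K ih =>
    intro hK1
    by_cases hK : K < Ks
    · exact ⟨1, K, le_rfl, Nat.one_le_pow _ _ hK1, hK1, hK.le, fun n0 m h => by
        rwa [one_mul]⟩
    · push Not at hK
      obtain ⟨hbig, hff⟩ := hKs K hK
      have hqq : 2 ≤ qq := by rw [qq_eq]; norm_num
      have hf1 : 1 ≤ ff K := by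
        rw [ff_eq]
        have := kk_pos hbig
        exact Nat.one_le_pow _ _ (by omega)
      have hlt : ff K < K := by nlinarith
      obtain ⟨m', K', h1, h2, h3, h4, h5⟩ := ih (ff K) hlt hf1
      refine ⟨m' * (K * qq), K', ?_, ?_, h3, h4, fun n0 m h => ?_⟩
      · have : 0 < K * qq := by positivity
        exact Nat.mul_pos h1 this
      · calc m' * (K * qq) ≤ ff K ^ 2 * (K * qq) := by gcongr
          _ = (qq * ff K ^ 2) * K := by ring
          _ ≤ K * K := by gcongr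
          _ = K ^ 2 := by ring
      · have h6 := base_exp hbig (kk (K * qq)) (kk_ge _)
        have h7 := h.step (by omega) h6
        have h8 := h5 n0 (K * qq * m) h7
        rwa [← mul_assoc] at h8

/-- groups with boundedly many expanding elements -/
theorem exists_RR : ∃ Ks : ℕ, 1 ≤ Ks ∧ ∀ N : ℕ, 1 ≤ kk N → ∃ m K', 1 ≤ m ∧
    m ≤ (4 * kk N) ^ 180 ∧ 1 ≤ K' ∧ K' ≤ Ks ∧ ∀ n0, Big n0 → n0 ≤ N → RR n0 m K' := by
  obtain ⟨Ks, hKs1, hKs⟩ := reduce
  refine ⟨Ks, hKs1, fun N hN => ?_⟩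
  obtain ⟨m', K', h1, h2, h3, h4, h5⟩ := hKs ((4 * kk N) ^ 90)
    (Nat.one_le_pow _ _ (by omega))
  refine ⟨m', K', h1, by rw [← pow_mul] at h2; exact h2, h3, h4, fun n0 hbig hle => ?_⟩
  have hn0 : (1 : ℝ) ≤ n0 := by
    have := hbig.n1000
    have : 1 ≤ n0 := by omega
    exact_mod_cast this
  have h6 : (bigC + 1) * Real.log n0 ^ 4 ≤ kk N := by
    refine le_trans ?_ (kk_ge N)
    have hb : (0 : ℝ) ≤ bigC := le_trans (by norm_num) bigC_ge
    have h7 : 0 ≤ Real.log n0 := Real.log_nonneg hn0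
    have h8 : Real.log n0 ≤ Real.log N := Real.log_le_log (by linarith) (by exact_mod_cast hle)
    gcongr
  have h9 := h5 n0 1 (RR.base (by have := hbig.n1000; omega) (base_exp hbig _ h6))
  rwa [mul_one] at h9

end Pool.Agent.Helper15.Pair
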