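import Pool.Agent.Helper15.Pair.Grid

/-! Kazhdan type inequality for two elements of the alternating group. -/

set_option linter.unusedSectionVars false

namespace Pool.Agent.Helper15.Pair

open Equiv

/-- initial segment of `Fin N` -/
def initE {N M : ℕ} (h : M ≤ N) : Fin M ≃ {i : Fin N // i.val < M} where
  toFun i := ⟨⟨i.val, lt_of_lt_of_le i.isLt h⟩, i.isLt⟩
  invFun i := ⟨i.1.val, i.2⟩
  left_inv _ := rfl
  right_inv _ := rfl

/-- the grid as an initial segment -/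
def gridE {N m b : ℕ} (h : m * (b * m) ≤ N) :
    Fin m × (Fin b × Fin m) ≃ {i : Fin N // i.val < m * (b * m)} :=
  ((Equiv.prodCongr (Equiv.refl _) finProdFinEquiv).trans finProdFinEquiv).trans (initE h)

/-- the block embedding of the grid permutations -/
def blockHom {N m b : ℕ} (h : m * (b * m) ≤ N) :
    Perm (Fin m × (Fin b × Fin m)) →* Perm (Fin N) :=
  Perm.extendDomainHom (gridE h)

theorem blockHom_fix {N m b : ℕ} (h : m * (b * m) ≤ N) (g : Perm (Fin m × (Fin b × Fin m)))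
    (t : Fin N) (ht : m * (b * m) ≤ t.val) : blockHom h g t = t :=
  Perm.extendDomain_apply_not_subtype g (gridE h) (by omega)

theorem blockHom_surj {N m b : ℕ} (h : m * (b * m) ≤ N) (g : Perm (Fin N))
    (hg : ∀ t : Fin N, m * (b * m) ≤ t.val → g t = t) :
    ∃ g', blockHom h g' = g ∧ Perm.sign g' = Perm.sign g := by
  have hp : ∀ x : Fin N, (g x).val < m * (b * m) ↔ x.val < m * (b * m) := by
    intro x
    constructor
    · intro hx
      by_contra hcon
      rw [hg x (by omega)] at hx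
      exact hcon hx
    · intro hx
      by_contra hcon
      have h1 := hg (g x) (by omega)
      have h2 := g.injective h1
      rw [h2] at hcon
      exact hcon hx
  refine ⟨(gridE h).symm.permCongr (Perm.subtypePerm g hp), ?_, ?_⟩
  · refine Equiv.ext fun t => ?_
    by_cases ht : t.val < m * (b * m)
    · have h1 := Perm.extendDomain_apply_subtype
        ((gridE h).symm.permCongr (Perm.subtypePerm g hp)) (gridE h) ht
      have h2 : blockHom h ((gridE h).symm.permCongr (Perm.subtypePerm g hp)) t =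
        Perm.extendDomain ((gridE h).symm.permCongr (Perm.subtypePerm g hp)) (gridE h) t := rfl
      rw [h2, h1, Equiv.permCongr_apply]
      simp
    · rw [blockHom_fix h _ t (by omega), hg t (by omega)]
  · have h2 : blockHom h ((gridE h).symm.permCongr (Perm.subtypePerm g hp)) = g := by
      refine Equiv.ext fun t => ?_
      by_cases ht : t.val < m * (b * m)
      · have h1 := Perm.extendDomain_apply_subtype
          ((gridE h).symm.permCongr (Perm.subtypePerm g hp)) (gridE h) ht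
        have h2 : blockHom h ((gridE h).symm.permCongr (Perm.subtypePerm g hp)) t =
          Perm.extendDomain ((gridE h).symm.permCongr (Perm.subtypePerm g hp)) (gridE h) t := rfl
        rw [h2, h1, Equiv.permCongr_apply]
        simp
      · rw [blockHom_fix h _ t (by omega), hg t (by omega)]
    conv_rhs => rw [← h2]
    exact (Perm.sign_extendDomain _ (gridE h)).symm

/-- Kazhdan constant of a pair: displacement by the pair controls displacement by the group -/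
def KazPair (N : ℕ) (C : ℝ) : Prop :=
  ∃ x y : alternatingGroup (Fin N), ∀ (V : Type) [NormedAddCommGroup V] [InnerProductSpace ℂ V]
    [FiniteDimensional ℂ V] (ρ : Representation ℂ (alternatingGroup (Fin N)) V),
    (∀ g v, ‖ρ g v‖ = ‖v‖) → ∀ (v : V) (g : alternatingGroup (Fin N)),
      ‖ρ g v - v‖ ≤ C * (‖ρ x v - v‖ + ‖ρ y v - v‖)

theorem kaz_of_GG {N b m K a' J : ℕ} [NeZero N] (hb : 2 ≤ b) (hK : 0 < K) (hG : GG b m K)
    (h1 : 2 * (2 * a') + 2 ≤ m * (b * m)) (h2 : m * (b * m) ≤ 3 * (2 * a'))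
    (h3 : 4 ^ (K * 8 + 3) * (2 * a') ≤ N) (hJ : N ≤ J * (2 * a')) :
    KazPair N ((216 * 4 ^ (K * 8 + 1) + 2 * J) * 2 ^ (J + 1)) := by
  obtain ⟨G, iG, fG, φ, hperf, ⟨U, hU⟩, hφ⟩ := hG
  have hMN : m * (b * m) ≤ N := by
    have h4 : 64 ≤ 4 ^ (K * 8 + 3) := by
      rw [pow_add]
      have : 1 ≤ 4 ^ (K * 8) := Nat.one_le_pow _ _ (by norm_num)
      omega
    have h5 : 64 * (2 * a') ≤ 4 ^ (K * 8 + 3) * (2 * a') := Nat.mul_le_mul_right _ h4
    omega
  set E := blockHom (N := N) (m := m) (b := b) hMN with hE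
  have hcw : ∀ k, ∃ p : Fin 4 → Perm (Fin m × (Fin b × Fin m)),
      φ (U k) = (p 0 * p 1 * (p 0)⁻¹ * (p 1)⁻¹) * (p 2 * p 3 * (p 2)⁻¹ * (p 3)⁻¹) := by
    intro k
    obtain ⟨a, b', c, d, h⟩ := Pool.Agent.Helper62.PairA.comm_width (φ (U k))
      (sign_of_perf hperf φ (U k))
    exact ⟨![a, b', c, d], h⟩
  choose p hp using hcw
  set F := flipE m b with hF
  set S0 : Fin K × (Fin 2 × Fin 4) → Perm (Fin N) := fun q =>
    E (if q.2.1 = 0 then p q.1 q.2.2 else F * p q.1 q.2.2 * F⁻¹) with hS0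
  set eq : Fin (K * 8) ≃ Fin K × (Fin 2 × Fin 4) :=
    (finProdFinEquiv.symm).trans (Equiv.prodCongr (Equiv.refl _)
      (finProdFinEquiv (m := 2) (n := 4)).symm) with heq
  obtain ⟨x, y, hxA, hyA, hy, hcomm⟩ := two_gen (s := K * 8) (M := m * (b * m)) (a' := a')
    (by omega) h2 h3 (fun i => S0 (eq i)) (fun i t ht => blockHom_fix hMN _ t ht)
  refine ⟨⟨x, hxA⟩, ⟨y, hyA⟩, ?_⟩
  intro V _ _ _ ρ hρ v g
  set L := len ρ v with hL
  have hLen : IsLen L := len_isLen ρ hρ v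
  have hLx : L x = ‖ρ ⟨x, hxA⟩ v - v‖ := len_of_mem ρ v x hxA
  have hLy : L y = ‖ρ ⟨y, hyA⟩ v - v‖ := len_of_mem ρ v y hyA
  have hx0 := hLen.nonneg x
  have hy0 := hLen.nonneg y
  have hc : ∀ q q', L (S0 q * S0 q' * (S0 q)⁻¹ * (S0 q')⁻¹) ≤
      6 * 4 ^ (K * 8 + 1) * (L x + L y) := by
    intro q q'
    have := hcomm L hLen (eq.symm q) (eq.symm q')
    simpa using this
  set d : ℝ := 12 * 4 ^ (K * 8 + 1) * (L x + L y) with hd
  have hd1 : ∀ k, L (E (φ (U k))) ≤ d := by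
    intro k
    have e1 : E (φ (U k)) = (S0 (k, 0, 0) * S0 (k, 0, 1) * (S0 (k, 0, 0))⁻¹ *
        (S0 (k, 0, 1))⁻¹) * (S0 (k, 0, 2) * S0 (k, 0, 3) * (S0 (k, 0, 2))⁻¹ *
        (S0 (k, 0, 3))⁻¹) := by
      rw [hp k, hS0]
      simp only [if_true, map_mul, map_inv]
    rw [e1, hd]
    have a1 := hLen.mul (S0 (k, 0, 0) * S0 (k, 0, 1) * (S0 (k, 0, 0))⁻¹ *
        (S0 (k, 0, 1))⁻¹) (S0 (k, 0, 2) * S0 (k, 0, 3) * (S0 (k, 0, 2))⁻¹ *
        (S0 (k, 0, 3))⁻¹)
    have a2 := hc (k, 0, 0) (k, 0, 1)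
    have a3 := hc (k, 0, 2) (k, 0, 3)
    linarith
  have hd2 : ∀ k, L (E (F * φ (U k) * F⁻¹)) ≤ d := by
    intro k
    have e1 : E (F * φ (U k) * F⁻¹) = (S0 (k, 1, 0) * S0 (k, 1, 1) * (S0 (k, 1, 0))⁻¹ *
        (S0 (k, 1, 1))⁻¹) * (S0 (k, 1, 2) * S0 (k, 1, 3) * (S0 (k, 1, 2))⁻¹ *
        (S0 (k, 1, 3))⁻¹) := by
      rw [hp k, hS0]
      simp only [one_ne_zero, if_false, map_mul, map_inv]
      group
    rw [e1, hd]
    have a1 := hLen.mul (S0 (k, 1, 0) * S0 (k, 1, 1) * (S0 (k, 1, 0))⁻¹ *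
        (S0 (k, 1, 1))⁻¹) (S0 (k, 1, 2) * S0 (k, 1, 3) * (S0 (k, 1, 2))⁻¹ *
        (S0 (k, 1, 3))⁻¹)
    have a2 := hc (k, 1, 0) (k, 1, 1)
    have a3 := hc (k, 1, 2) (k, 1, 3)
    linarith
  have hblk : ∀ h : Perm (Fin N), Perm.sign h = 1 →
      (∀ t : Fin N, m * (b * m) ≤ t.val → h t = t) → L h ≤ 18 * d := by
    intro h hs ht
    obtain ⟨h', hh', hs'⟩ := blockHom_surj hMN h ht
    rw [← hh']
    exact grid_bound ρ hρ v hb hK U hU hperf φ hφ E d hd1 hd2 h' (by rw [hs', hs])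
  have hfin := cover h1 y hy L hLen (18 * d) hblk J hJ g (Perm.mem_alternatingGroup.1 g.2)
  rw [hL, len_coe, ← hL] at hfin
  refine hfin.trans ?_
  rw [← hLx, ← hLy, hd]
  have h5 : (18 * (12 * 4 ^ (K * 8 + 1) * (L x + L y)) + 2 * J * L y) ≤
      (216 * 4 ^ (K * 8 + 1) + 2 * J) * (L x + L y) := by
    have : 0 ≤ 2 * (J : ℝ) * L x := by positivity
    linarith
  calc _ ≤ ((216 * 4 ^ (K * 8 + 1) + 2 * J) * (L x + L y)) * 2 ^ (J + 1) := by gcongr
    _ = _ := by ring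

end Pool.Agent.Helper15.Pair
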