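import Pool.Agent.Helper15.Pair.Coord

/-! Random balanced colourings: vectors with large support. -/

set_option linter.unusedSectionVars false

namespace Pool.Agent.Helper15.Pair

open Equiv

section count
variable {I κ : Type} [Fintype I] [DecidableEq I] [Fintype κ] [DecidableEq κ]

/-- number of points of colour `k` -/
def colN (c : I → κ) (k : κ) : ℕ := (Finset.univ.filter (fun i => c i = k)).card

theorem sum_colN (c : I → κ) : ∑ k, colN c k = Fintype.card I := by
  have h1 := Finset.card_eq_sum_card_fiberwise (s := (Finset.univ : Finset I))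
    (t := (Finset.univ : Finset κ)) (f := c) (fun _ _ => Finset.mem_univ _)
  rw [Finset.card_univ] at h1
  rw [h1]
  rfl

theorem colN_comp (c : I → κ) (σ : Perm I) (k : κ) : colN (c ∘ σ) k = colN c k := by
  unfold colN
  refine Finset.card_bij (fun i _ => σ i) ?_ ?_ ?_
  · intro i hi
    simpa using hi
  · intro i _ j _ h
    exact σ.injective h
  · intro j hj
    refine ⟨σ.symm j, by simpa using hj, by simp⟩

theorem card_fiber (c : I → κ) (k : κ) : Fintype.card {i // c i = k} = colN c k := by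
  rw [Fintype.card_subtype]; rfl

theorem exists_perm (c₀ c : I → κ) (h : ∀ k, colN c₀ k = colN c k) :
    ∃ τ : Perm I, c₀ ∘ τ = c := by
  have h1 : ∀ k, Nonempty ({i // c i = k} ≃ {i // c₀ i = k}) := by
    intro k
    refine Fintype.card_eq.1 ?_
    rw [card_fiber, card_fiber, h]
  refine ⟨Equiv.ofFiberEquiv fun k => (h1 k).some, ?_⟩
  funext i
  exact Equiv.ofFiberEquiv_map _ i

theorem count_perm (q : ℕ) (c₀ c : I → κ) (h₀ : ∀ k, colN c₀ k = q) :
    (Finset.univ.filter (fun σ : Perm I => c₀ ∘ σ = c)).card =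
      if ∀ k, (q + 1) ∣ colN c k + 1 then q.factorial ^ Fintype.card κ else 0 := by
  have hI : Fintype.card I = Fintype.card κ * q := by
    rw [← sum_colN c₀]
    simp_rw [h₀]
    simp
  split_ifs with hc
  · have h1 : ∀ k, q ≤ colN c k := by
      intro k
      have := Nat.le_of_dvd (Nat.succ_pos _) (hc k)
      omega
    have h2 : ∀ k, colN c k = q := by
      have h3 : ∑ k : κ, q = ∑ k, colN c k := by
        rw [sum_colN, hI]; simp
      have h4 := (Finset.sum_eq_sum_iff_of_le (s := Finset.univ) (f := fun _ : κ => q)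
        (g := fun k => colN c k) (fun k _ => h1 k)).1 h3
      exact fun k => (h4 k (Finset.mem_univ k)).symm
    obtain ⟨τ, hτ⟩ := exists_perm c₀ c fun k => by rw [h₀, h2]
    have h5 : (Finset.univ.filter (fun σ : Perm I => c₀ ∘ σ = c)).card =
        (Finset.univ.filter (fun σ : Perm I => c₀ ∘ σ = c₀)).card := by
      refine Finset.card_bij (fun σ _ => σ * τ⁻¹) ?_ ?_ ?_
      · intro σ hσ
        rw [Finset.mem_filter] at hσ ⊢
        refine ⟨Finset.mem_univ _, ?_⟩
        have h6 : c₀ ∘ (σ * τ⁻¹ : Perm I) = (c₀ ∘ σ) ∘ (τ⁻¹ : Perm I) := rfl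
        rw [h6, hσ.2, ← hτ]
        funext i
        simp
      · intro σ _ σ' _ h
        exact mul_right_cancel h
      · intro σ hσ
        refine ⟨σ * τ, ?_, by simp⟩
        rw [Finset.mem_filter] at hσ ⊢
        refine ⟨Finset.mem_univ _, ?_⟩
        have h6 : c₀ ∘ (σ * τ : Perm I) = (c₀ ∘ σ) ∘ τ := rfl
        rw [h6, hσ.2, hτ]
    rw [h5, ← Fintype.card_subtype]
    have h7 := DomMulAct.stabilizer_card c₀
    rw [h7]
    simp_rw [card_fiber, h₀]
    rw [Finset.prod_const, Finset.card_univ]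
  · rw [Finset.card_eq_zero, Finset.filter_eq_empty_iff]
    intro σ _ hσ
    apply hc
    intro k
    rw [← hσ, colN_comp, h₀]

theorem root_sum {M : ℕ} {ω : ℂ} (hω : IsPrimitiveRoot ω M) (a : ℕ) :
    ∑ t : Fin M, ω ^ ((t : ℕ) * a) = if M ∣ a then (M : ℂ) else 0 := by
  have h1 : ∑ t : Fin M, ω ^ ((t : ℕ) * a) = ∑ t ∈ Finset.range M, (ω ^ a) ^ t := by
    rw [Finset.sum_range]
    refine Finset.sum_congr rfl fun t _ => ?_
    rw [← pow_mul, mul_comm]
  rw [h1]
  split_ifs with h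
  · rw [(hω.pow_eq_one_iff_dvd a).2 h]
    simp
  · have h2 : ω ^ a ≠ 1 := fun h3 => h ((hω.pow_eq_one_iff_dvd a).1 h3)
    have h3 := mul_neg_geom_sum (ω ^ a) M
    rw [← pow_mul, mul_comm a M, pow_mul, hω.pow_eq_one, one_pow, sub_self] at h3
    rcases mul_eq_zero.1 h3 with h4 | h4
    · exact absurd (sub_eq_zero.1 h4).symm h2
    · exact h4

theorem fourier {M : ℕ} {ω : ℂ} (hω : IsPrimitiveRoot ω M) (c : I → κ) :
    ∑ t : κ → Fin M, (∏ k, ω ^ (t k : ℕ)) * ∏ i, ω ^ (t (c i) : ℕ) =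
      if ∀ k, M ∣ colN c k + 1 then (M : ℂ) ^ Fintype.card κ else 0 := by
  have h1 : ∀ t : κ → Fin M, (∏ k, ω ^ (t k : ℕ)) * ∏ i, ω ^ (t (c i) : ℕ) =
      ∏ k, ω ^ ((t k : ℕ) * (colN c k + 1)) := by
    intro t
    rw [← Finset.prod_fiberwise Finset.univ c, ← Finset.prod_mul_distrib]
    refine Finset.prod_congr rfl fun k _ => ?_
    rw [Finset.prod_congr rfl (g := fun _ => ω ^ (t k : ℕ)) (fun i hi => by
      rw [(Finset.mem_filter.1 hi).2]), Finset.prod_const, mul_add, mul_one, pow_add, pow_mul,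
      mul_comm]
    rfl
  simp_rw [h1]
  have h2 := Finset.prod_univ_sum (fun _ : κ => (Finset.univ : Finset (Fin M)))
    (fun k t => ω ^ ((t : ℕ) * (colN c k + 1)))
  rw [Fintype.piFinset_univ] at h2
  rw [← h2]
  simp_rw [root_sum hω]
  split_ifs with h
  · rw [Finset.prod_congr rfl (g := fun _ => (M : ℂ)) (fun k _ => by rw [if_pos (h k)])]
    rw [Finset.prod_const, Finset.card_univ]
  · push Not at h
    obtain ⟨k, hk⟩ := h
    exact Finset.prod_eq_zero (Finset.mem_univ k) (if_neg hk)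

end count

section large
variable {I G : Type} [Fintype I] [DecidableEq I] [Group G] [Fintype G]
  {V : Type} [NormedAddCommGroup V] [InnerProductSpace ℂ V] (ρ : Representation ℂ (I → G) V)
  {κ : Type} [Fintype κ] [DecidableEq κ]

/-- large supports -/
theorem large_bound [FiniteDimensional ℂ V] (hρ : ∀ g v, ‖ρ g v‖ = ‖v‖) {J : Finset I} {v : V}
    (hv : IsPure ρ J v) (U : κ → G) (η : ℝ) (hη : 0 ≤ η) (hU : Exp G U η) (hperf : Perf G)
    (hκ : 0 < Fintype.card κ) (c₀ : I → κ) (q : ℕ) (hc₀ : ∀ k, colN c₀ k = q) :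
    ‖∑ σ : Perm I, ρ (fun i => U (c₀ (σ i))) v‖ ≤ (q.factorial : ℝ) ^ Fintype.card κ *
      ((Fintype.card κ : ℝ) ^ Fintype.card I * Real.sqrt (1 / 2 + η) ^ J.card * ‖v‖) := by
  set P : (I → κ) → Prop := fun c => ∀ k, (q + 1) ∣ colN c k + 1 with hP
  set B : V := ∑ c : I → κ, (if P c then (1 : ℂ) else 0) • ρ (fun i => U (c i)) v with hB
  have h1 : ∑ σ : Perm I, ρ (fun i => U (c₀ (σ i))) v =
      ((q.factorial : ℂ) ^ Fintype.card κ) • B := by
    rw [← Finset.sum_fiberwise Finset.univ (fun σ : Perm I => c₀ ∘ σ), hB, Finset.smul_sum]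
    refine Finset.sum_congr rfl fun c _ => ?_
    rw [Finset.sum_congr rfl (g := fun _ => ρ (fun i => U (c i)) v) (fun σ hσ => by
      rw [← (Finset.mem_filter.1 hσ).2]; rfl), Finset.sum_const, count_perm q c₀ c hc₀, smul_smul,
      ← Nat.cast_smul_eq_nsmul ℂ]
    congr 1
    by_cases h : P c
    · rw [if_pos h, if_pos h]; push_cast; ring
    · rw [if_neg h, if_neg h]; push_cast; ring
  set M := q + 1 with hM
  obtain ⟨ω, hω⟩ : ∃ ω : ℂ, IsPrimitiveRoot ω M :=
    ⟨_, Complex.isPrimitiveRoot_exp M (Nat.succ_ne_zero q)⟩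
  have hωn : ‖ω‖ = 1 := Complex.norm_eq_one_of_pow_eq_one hω.pow_eq_one (Nat.succ_ne_zero q)
  have h2 : ((M : ℂ) ^ Fintype.card κ) • B =
      ∑ t : κ → Fin M, (∏ k, ω ^ (t k : ℕ)) •
        twSum ρ U (fun k => ω ^ (t k : ℕ)) Finset.univ v := by
    unfold twSum
    simp_rw [Finset.smul_sum]
    rw [Finset.sum_comm, hB, Finset.smul_sum]
    refine Finset.sum_congr rfl fun c _ => ?_
    simp_rw [smul_smul]
    rw [← Finset.sum_smul, fourier hω c]
    have h3 : (fun i => if i ∈ (Finset.univ : Finset I) then U (c i) else 1) =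
        fun i => U (c i) := by
      funext i; simp
    rw [h3]
    congr 1
    by_cases h : P c
    · rw [if_pos h, if_pos h, mul_one]
    · rw [if_neg h, if_neg h, mul_zero]
  have hMr : (0 : ℝ) < (M : ℝ) ^ Fintype.card κ := by positivity
  have h4 : (M : ℝ) ^ Fintype.card κ * ‖B‖ ≤ (M : ℝ) ^ Fintype.card κ *
      ((Fintype.card κ : ℝ) ^ Fintype.card I * Real.sqrt (1 / 2 + η) ^ J.card * ‖v‖) := by
    have h5 : (M : ℝ) ^ Fintype.card κ * ‖B‖ = ‖((M : ℂ) ^ Fintype.card κ) • B‖ := by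
      rw [norm_smul, norm_pow, Complex.norm_natCast]
    rw [h5, h2]
    refine (norm_sum_le _ _).trans ?_
    have h6 : ∀ t : κ → Fin M, ‖(∏ k, ω ^ (t k : ℕ)) •
        twSum ρ U (fun k => ω ^ (t k : ℕ)) Finset.univ v‖ ≤
        (Fintype.card κ : ℝ) ^ Fintype.card I * Real.sqrt (1 / 2 + η) ^ J.card * ‖v‖ := by
      intro t
      rw [norm_smul, norm_prod]
      simp_rw [norm_pow, hωn, one_pow, Finset.prod_const_one, one_mul]
      have h7 := twSum_le ρ hρ hv U η hη hU hperf hκ (fun k => ω ^ (t k : ℕ))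
        (fun k => by rw [norm_pow, hωn, one_pow]) Finset.univ
      rwa [Finset.univ_inter] at h7
    refine (Finset.sum_le_sum fun t _ => h6 t).trans (le_of_eq ?_)
    rw [Finset.sum_const, Finset.card_univ, Fintype.card_fun, Fintype.card_fin, nsmul_eq_mul]
    push_cast
    ring
  have h8 := le_of_mul_le_mul_left h4 hMr
  rw [h1, norm_smul, norm_pow, Complex.norm_natCast]
  gcongr

end large

end Pool.Agent.Helper15.Pair
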