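import Pool.Agent.Helper15.Pair.Def
import Pool.Agent.Helper62.PairD
import Pool.Agent.H29.PairC

/-! Length functions on the symmetric group coming from representations of `A_N`. -/

set_option linter.unusedSectionVars false

namespace Pool.Agent.Helper15.Pair

open Equiv

/-- symmetric subadditive length function -/
structure IsLen {P : Type} [Group P] (L : P → ℝ) : Prop where
  nonneg : ∀ g, 0 ≤ L g
  one : L 1 = 0
  mul : ∀ g h, L (g * h) ≤ L g + L h
  inv : ∀ g, L g⁻¹ = L g

namespace IsLen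
variable {P : Type} [Group P] {L : P → ℝ} (hL : IsLen L)
include hL

theorem pow (g : P) (n : ℕ) : L (g ^ n) ≤ n * L g := by
  induction n with
  | zero => rw [pow_zero, hL.one]; simp
  | succ n ih =>
    rw [pow_succ]
    have := hL.mul (g ^ n) g
    push_cast
    linarith

theorem zpow (g : P) (n : ℤ) : L (g ^ n) ≤ |(n : ℝ)| * L g := by
  rcases n.eq_nat_or_neg with ⟨k, rfl | rfl⟩
  · rw [zpow_natCast]
    have := hL.pow g k
    simpa using this
  · rw [zpow_neg, zpow_natCast, hL.inv]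
    have := hL.pow g k
    simpa using this

theorem conj (g h : P) : L (g * h * g⁻¹) ≤ 2 * L g + L h := by
  have h1 := hL.mul (g * h) g⁻¹
  have h2 := hL.mul g h
  rw [hL.inv] at h1
  linarith

theorem of_conj (g h : P) : L h ≤ 2 * L g + L (g * h * g⁻¹) := by
  have h1 := hL.conj g⁻¹ (g * h * g⁻¹)
  have h2 : g⁻¹ * (g * h * g⁻¹) * g⁻¹⁻¹ = h := by group
  rw [h2, hL.inv] at h1
  exact h1

theorem comm (g h : P) : L (g * h * g⁻¹ * h⁻¹) ≤ 2 * L g + 2 * L h := by
  have h1 := hL.mul (g * h * g⁻¹) h⁻¹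
  have h2 := hL.mul (g * h) g⁻¹
  have h3 := hL.mul g h
  rw [hL.inv] at h1 h2
  linarith

end IsLen

section len
variable {N : ℕ} {V : Type} [NormedAddCommGroup V] [InnerProductSpace ℂ V]
  (ρ : Representation ℂ (alternatingGroup (Fin N)) V)

open Classical in
/-- displacement of `v` -/
noncomputable def len (v : V) (g : Perm (Fin N)) : ℝ :=
  if h : g ∈ alternatingGroup (Fin N) then ‖ρ ⟨g, h⟩ v - v‖ else 2 * ‖v‖

theorem len_of_mem (v : V) (g : Perm (Fin N)) (h : g ∈ alternatingGroup (Fin N)) :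
    len ρ v g = ‖ρ ⟨g, h⟩ v - v‖ := by
  unfold len
  rw [dif_pos h]

theorem len_coe (v : V) (g : alternatingGroup (Fin N)) :
    len ρ v (g : Perm (Fin N)) = ‖ρ g v - v‖ := len_of_mem ρ v g g.2

theorem len_of_notMem (v : V) (g : Perm (Fin N)) (h : g ∉ alternatingGroup (Fin N)) :
    len ρ v g = 2 * ‖v‖ := by
  unfold len
  rw [dif_neg h]

theorem len_nonneg (v : V) (g : Perm (Fin N)) : 0 ≤ len ρ v g := by
  by_cases h : g ∈ alternatingGroup (Fin N)
  · rw [len_of_mem ρ v g h]; positivity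
  · rw [len_of_notMem ρ v g h]; positivity

theorem len_le (hρ : ∀ g v, ‖ρ g v‖ = ‖v‖) (v : V) (g : Perm (Fin N)) :
    len ρ v g ≤ 2 * ‖v‖ := by
  by_cases h : g ∈ alternatingGroup (Fin N)
  · rw [len_of_mem ρ v g h]
    refine (norm_sub_le _ _).trans ?_
    rw [hρ]; linarith
  · rw [len_of_notMem ρ v g h]

theorem len_isLen (hρ : ∀ g v, ‖ρ g v‖ = ‖v‖) (v : V) : IsLen (len ρ v) where
  nonneg := len_nonneg ρ v
  one := by
    rw [len_of_mem ρ v 1 (Subgroup.one_mem _)]
    have : (⟨1, Subgroup.one_mem _⟩ : alternatingGroup (Fin N)) = 1 := rfl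
    rw [this, map_one]
    simp
  mul := by
    intro g h
    by_cases hg : g ∈ alternatingGroup (Fin N)
    · by_cases hh : h ∈ alternatingGroup (Fin N)
      · rw [len_of_mem ρ v _ (Subgroup.mul_mem _ hg hh), len_of_mem ρ v g hg,
          len_of_mem ρ v h hh]
        have h1 : (⟨g * h, Subgroup.mul_mem _ hg hh⟩ : alternatingGroup (Fin N)) =
          ⟨g, hg⟩ * ⟨h, hh⟩ := rfl
        rw [h1, rho_mul_apply]
        have h2 : ρ ⟨g, hg⟩ (ρ ⟨h, hh⟩ v) - v =
            ρ ⟨g, hg⟩ (ρ ⟨h, hh⟩ v - v) + (ρ ⟨g, hg⟩ v - v) := by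
          rw [map_sub]; abel
        rw [h2]
        refine (norm_add_le _ _).trans ?_
        rw [hρ]
        linarith
      · have := len_nonneg ρ v g
        rw [len_of_notMem ρ v h hh]
        have h1 := len_le ρ hρ v (g * h)
        linarith
    · have := len_nonneg ρ v h
      rw [len_of_notMem ρ v g hg]
      have h1 := len_le ρ hρ v (g * h)
      linarith
  inv := by
    intro g
    by_cases hg : g ∈ alternatingGroup (Fin N)
    · rw [len_of_mem ρ v _ (Subgroup.inv_mem _ hg), len_of_mem ρ v g hg]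
      have h1 : (⟨g⁻¹, Subgroup.inv_mem _ hg⟩ : alternatingGroup (Fin N)) = ⟨g, hg⟩⁻¹ := rfl
      rw [h1, ← hρ ⟨g, hg⟩, map_sub, ← rho_mul_apply, mul_inv_cancel, map_one,
        ← norm_neg]
      congr 1
      simp
    · have : g⁻¹ ∉ alternatingGroup (Fin N) := by
        intro h
        exact hg ((Subgroup.inv_mem_iff _).1 h)
      rw [len_of_notMem ρ v _ this, len_of_notMem ρ v g hg]

end len

/-- almost invariance under an expanding family gives almost invariance under the group -/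
theorem gap_use {G : Type} [Group G] [Fintype G] {K : ℕ} (hK : 0 < K) (U : Fin K → G)
    (hU : Exp G U (1 / 100)) {V : Type} [NormedAddCommGroup V] [InnerProductSpace ℂ V]
    [FiniteDimensional ℂ V] (ρ : Representation ℂ G V) (hρ : ∀ g v, ‖ρ g v‖ = ‖v‖) (v : V)
    (d : ℝ) (hd : ∀ k, ‖ρ (U k) v - v‖ ≤ d) (g : G) : ‖ρ g v - v‖ ≤ 3 * d := by
  set w := nonInv ρ v with hw
  have hKr : (0 : ℝ) < K := by exact_mod_cast hK
  have hdiff : ∀ h : G, ρ h v - v = ρ h w - w := by
    intro h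
    rw [hw]
    unfold nonInv
    rw [map_sub, map_smul, rho_sum_left]
    abel
  have h1 := hU V ρ hρ w (sum_nonInv ρ v)
  rw [Fintype.card_fin] at h1
  have h2 : (K : ℝ) * ‖w‖ ≤ K * d + 1 / 100 * K * ‖w‖ := by
    have h3 : (K : ℂ) • w = ∑ k, ρ (U k) w - ∑ k, (ρ (U k) v - v) := by
      simp_rw [hdiff]
      rw [Finset.sum_sub_distrib, Finset.sum_const, Finset.card_univ, Fintype.card_fin,
        ← Nat.cast_smul_eq_nsmul ℂ]
      abel
    have h4 : (K : ℝ) * ‖w‖ = ‖(K : ℂ) • w‖ := by rw [norm_smul, Complex.norm_natCast]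
    rw [h4, h3]
    refine (norm_sub_le _ _).trans ?_
    have h5 : ‖∑ k, (ρ (U k) v - v)‖ ≤ K * d := by
      refine (norm_sum_le _ _).trans ((Finset.sum_le_sum fun k _ => hd k).trans ?_)
      rw [Finset.sum_const, Finset.card_univ, Fintype.card_fin, nsmul_eq_mul]
    linarith
  have h3 : ‖w‖ ≤ 100 / 99 * d := by
    have h4 : (K : ℝ) * ‖w‖ ≤ K * (100 / 99 * d) := by linarith
    exact le_of_mul_le_mul_left h4 hKr
  rw [hdiff]
  refine (norm_sub_le _ _).trans ?_
  rw [hρ]
  have := norm_nonneg w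
  linarith

end Pool.Agent.Helper15.Pair
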