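import Pool.Agent.Helper15.Pair.Wreath

/-! The recursion reducing the number of generators. -/

set_option linter.unusedSectionVars false

namespace Pool.Agent.Helper15.Pair

open Equiv Filter

/-- There is a perfect group `G` acting on `m` rows of size `n0`, with `K` expanding elements,
whose action realizes all tuples of even permutations of the rows. -/
def RR (n0 m K : ℕ) : Prop :=
  ∃ (G : Type) (_ : Group G) (_ : Fintype G) (φ : G →* Perm (Fin m × Fin n0)),
    Perf G ∧ HasExp G K (1 / 100) ∧
      ∀ π : Fin m → Perm (Fin n0), (∀ j, Perm.sign (π j) = 1) → ∃ g, φ g = prodCongrRight π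

/-- permutations act on tuples -/
def permAct (n : ℕ) (G : Type) [Group G] : Perm (Fin n) →* MulAut (Fin n → G) where
  toFun σ :=
    { toFun := fun f i => f (σ⁻¹ i)
      invFun := fun f i => f (σ i)
      left_inv := fun f => by funext i; simp
      right_inv := fun f => by funext i; simp
      map_mul' := fun f g => rfl }
  map_one' := by
    ext f i
    rfl
  map_mul' σ τ := by
    ext f i
    simp [mul_inv_rev]

/-- the wreath product -/
abbrev WR (n : ℕ) (G : Type) [Group G] : Type :=
  SemidirectProduct (Fin n → G) (alternatingGroup (Fin n))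
    ((permAct n G).comp (alternatingGroup (Fin n)).subtype)

noncomputable instance (n : ℕ) (G : Type) [Group G] [Fintype G] : Fintype (WR n G) :=
  Fintype.ofEquiv _ (SemidirectProduct.equivProd (φ := (permAct n G).comp
    (alternatingGroup (Fin n)).subtype)).symm

theorem wr_comm (n : ℕ) (G : Type) [Group G] (h : alternatingGroup (Fin n)) (f : Fin n → G) :
    (SemidirectProduct.inr h * SemidirectProduct.inl f : WR n G) =
      SemidirectProduct.inl (fun i => f ((h : Perm (Fin n))⁻¹ i)) * SemidirectProduct.inr h := by
  have h1 := SemidirectProduct.inl_aut (φ := (permAct n G).comp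
    (alternatingGroup (Fin n)).subtype) h f
  have h2 : ((permAct n G).comp (alternatingGroup (Fin n)).subtype) h f =
      fun i => f ((h : Perm (Fin n))⁻¹ i) := rfl
  rw [h2] at h1
  rw [h1, mul_assoc, ← map_mul, inv_mul_cancel, map_one, mul_one]

theorem wr_gen (n : ℕ) (G : Type) [Group G] (w : WR n G) :
    ∃ (f : Fin n → G) (h : alternatingGroup (Fin n)),
      w = SemidirectProduct.inl f * SemidirectProduct.inr h :=
  ⟨w.left, w.right, (SemidirectProduct.inl_left_mul_inr_right w).symm⟩

/-- action of a product on the rows -/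
def rowHom {n : ℕ} {G X : Type} [Group G] (φ : G →* Perm X) :
    (Fin n → G) →* Perm (Fin n × X) where
  toFun f := prodCongrRight fun i => φ (f i)
  map_one' := by
    ext x <;> simp
  map_mul' f g := by
    ext x <;> simp

/-- action of a permutation of the rows -/
def topHom {n : ℕ} {X : Type} : Perm (Fin n) →* Perm (Fin n × X) where
  toFun σ := prodCongrLeft fun _ => σ
  map_one' := by
    ext x <;> simp
  map_mul' f g := by
    ext x <;> simp

/-- action of the wreath product -/
def wrHom {n : ℕ} {G X : Type} [Group G] (φ : G →* Perm X) : WR n G →* Perm (Fin n × X) :=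
  SemidirectProduct.lift (rowHom φ) ((topHom (n := n) (X := X)).comp
    (alternatingGroup (Fin n)).subtype) (by
    intro h
    ext f x
    · simp [rowHom, topHom, permAct]
    · simp [rowHom, topHom, permAct])

theorem wrHom_inl {n : ℕ} {G X : Type} [Group G] (φ : G →* Perm X) (f : Fin n → G) :
    wrHom φ (SemidirectProduct.inl f) = prodCongrRight fun i => φ (f i) :=
  SemidirectProduct.lift_inl _ _ _ f

/-- balanced colouring -/
def col0 (K : ℕ) : Fin (K * qq) → Fin K := fun i => (finProdFinEquiv.symm i).1

theorem colN_col0 (K : ℕ) (k : Fin K) : colN (col0 K) k = qq := by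
  unfold colN
  have h1 : (Finset.univ.filter fun i => col0 K i = k) =
      (Finset.univ : Finset (Fin qq)).image (fun t => finProdFinEquiv (k, t)) := by
    ext i
    simp only [Finset.mem_filter, Finset.mem_univ, true_and, Finset.mem_image]
    constructor
    · intro h
      refine ⟨(finProdFinEquiv.symm i).2, ?_⟩
      have : (k, (finProdFinEquiv.symm i).2) = finProdFinEquiv.symm i := by
        rw [← h]; rfl
      rw [this, Equiv.apply_symm_apply]
    · rintro ⟨t, rfl⟩
      unfold col0
      rw [Equiv.symm_apply_apply]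
  have h2 : Function.Injective (fun t : Fin qq => finProdFinEquiv (k, t)) := by
    intro a b h
    have := finProdFinEquiv.injective h
    simpa using this
  rw [h1, Finset.card_image_of_injective _ h2, Finset.card_univ, Fintype.card_fin]

/-- rows of rows -/
def rowsE (n m n0 : ℕ) : Fin n × (Fin m × Fin n0) ≃ Fin (n * m) × Fin n0 :=
  (Equiv.prodAssoc _ _ _).symm.trans (Equiv.prodCongr finProdFinEquiv (Equiv.refl _))

/-- one step of the recursion -/
theorem RR.step {n0 m K D : ℕ} (h : RR n0 m K) (hK : 0 < K)
    (hD : HasExp (alternatingGroup (Fin (K * qq))) D (1 / 100)) :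
    RR n0 (K * qq * m) (D * D * (D * D)) := by
  obtain ⟨G, iG, fG, φ, hperf, ⟨U, hU⟩, hφ⟩ := h
  obtain ⟨T, hT⟩ := hD
  have h5 : 5 ≤ K * qq := by
    have : qq = 10000 := qq_eq
    nlinarith
  refine ⟨WR (K * qq) G, inferInstance, inferInstance,
    ((rowsE (K * qq) m n0).permCongrHom.toMonoidHom).comp (wrHom φ), ?_, ?_, ?_⟩
  · exact perf_wreath SemidirectProduct.inl SemidirectProduct.inr (wr_gen (K * qq) G) h5 hperf
  · have h1 := lift_exp (SemidirectProduct.inl) (SemidirectProduct.inr) (wr_comm (K * qq) G)
      (wr_gen (K * qq) G) U (col0 K) (colN_col0 K) hU hperf (by simpa using hK) T hT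
    have h2 := (HasExp.of (h1.mul h1 (by norm_num))).mono
      (show (7 / 100 * (7 / 100) : ℝ) ≤ 1 / 100 by norm_num)
    simpa using h2
  · intro π hπ
    have h1 : ∀ i : Fin (K * qq), ∃ g, φ g = prodCongrRight fun j => π (finProdFinEquiv (i, j)) :=
      fun i => hφ _ fun j => hπ _
    choose g hg using h1
    refine ⟨SemidirectProduct.inl g, ?_⟩
    change (rowsE (K * qq) m n0).permCongr (wrHom φ (SemidirectProduct.inl g)) = _
    rw [wrHom_inl]
    simp_rw [hg]
    refine Equiv.ext fun x => ?_
    obtain ⟨y, rfl⟩ := (rowsE (K * qq) m n0).surjective x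
    rw [Equiv.permCongr_apply, Equiv.symm_apply_apply]
    rfl

theorem RR.base {n0 D : ℕ} (hn : 5 ≤ n0) (hD : HasExp (alternatingGroup (Fin n0)) D (1 / 100)) :
    RR n0 1 D := by
  refine ⟨alternatingGroup (Fin n0), inferInstance, inferInstance,
    { toFun := fun g => prodCongrRight fun _ => (g : Perm (Fin n0))
      map_one' := by ext x <;> simp
      map_mul' := fun a b => by ext x <;> simp }, perf_alt hn, hD, ?_⟩
  intro π hπ
  refine ⟨⟨π 0, Perm.mem_alternatingGroup.2 (hπ 0)⟩, ?_⟩
  refine Equiv.ext fun x => ?_
  obtain ⟨i, j⟩ := x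
  have : i = 0 := Subsingleton.elim _ _
  subst this
  rfl

end Pool.Agent.Helper15.Pair
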