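import Pool.Agent.Helper15.Pair.Twist

/-! The representation on `V ⊗ conj V` and twisted averages. -/

set_option linter.unusedSectionVars false

namespace Pool.Agent.Helper15.Pair

open scoped ComplexConjugate Kronecker
open Matrix

section tens
variable {G : Type} [Group G] [Fintype G] {ι : Type} [Fintype ι] [DecidableEq ι]
  (R : G →* Matrix ι ι ℂ)

/-- representation of a matrix representation on Euclidean space -/
noncomputable def eucRep : Representation ℂ G (EuclideanSpace ℂ ι) where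
  toFun g := toEuclideanLin (R g)
  map_one' := by
    rw [map_one]
    ext v i
    simp
  map_mul' a b := by
    rw [map_mul]
    ext v i
    simp [Matrix.toLpLin_apply, Matrix.mulVec_mulVec]

theorem eucRep_apply (g : G) (v : EuclideanSpace ℂ ι) :
    eucRep R g v = WithLp.toLp 2 (R g *ᵥ v.ofLp) := rfl

theorem norm_sq_dot (v : EuclideanSpace ℂ ι) :
    ((‖v‖ ^ 2 : ℝ) : ℂ) = star v.ofLp ⬝ᵥ v.ofLp := by
  have h1 := inner_self_eq_norm_sq_to_K (𝕜 := ℂ) v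
  rw [EuclideanSpace.inner_eq_star_dotProduct, dotProduct_comm] at h1
  rw [h1]
  simp

theorem eucRep_norm (hR : ∀ g, (R g)ᴴ * R g = 1) (g : G) (v : EuclideanSpace ℂ ι) :
    ‖eucRep R g v‖ = ‖v‖ := by
  have h1 : ((‖eucRep R g v‖ ^ 2 : ℝ) : ℂ) = ((‖v‖ ^ 2 : ℝ) : ℂ) := by
    rw [norm_sq_dot, norm_sq_dot, eucRep_apply, star_mulVec, ← dotProduct_mulVec,
      mulVec_mulVec, hR, one_mulVec]
  have h2 : ‖eucRep R g v‖ ^ 2 = ‖v‖ ^ 2 := Complex.ofReal_injective h1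
  exact (pow_left_inj₀ (norm_nonneg _) (norm_nonneg _) (by norm_num)).1 h2

/-- `R ⊗ conj R` -/
noncomputable def tensRep : G →* Matrix (ι × ι) (ι × ι) ℂ where
  toFun g := R g ⊗ₖ (R g).map (starRingEnd ℂ)
  map_one' := by
    rw [map_one, Matrix.map_one _ (map_zero _) (map_one _), one_kronecker_one]
  map_mul' a b := by
    rw [map_mul, Matrix.map_mul, mul_kronecker_mul]

theorem tensRep_unit (hR : ∀ g, (R g)ᴴ * R g = 1) (g : G) :
    (tensRep R g)ᴴ * tensRep R g = 1 := by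
  have h1 : ((R g).map (starRingEnd ℂ))ᴴ * (R g).map (starRingEnd ℂ) = 1 := by
    have h2 := congrArg (fun A : Matrix ι ι ℂ => A.map (starRingEnd ℂ)) (hR g)
    simp only [Matrix.map_mul] at h2
    rw [Matrix.map_one _ (map_zero _) (map_one _)] at h2
    rw [← h2]
    rfl
  change (R g ⊗ₖ (R g).map (starRingEnd ℂ))ᴴ * (R g ⊗ₖ (R g).map (starRingEnd ℂ)) = 1
  rw [conjTranspose_kronecker, ← mul_kronecker_mul, hR, h1, one_kronecker_one]

/-- `x ⊗ conj x` -/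
noncomputable def sqv (x : EuclideanSpace ℂ ι) : EuclideanSpace ℂ (ι × ι) :=
  WithLp.toLp 2 fun p => x.ofLp p.1 * conj (x.ofLp p.2)

theorem tens_sqv (g : G) (x : EuclideanSpace ℂ ι) :
    eucRep (tensRep R) g (sqv x) = sqv (eucRep R g x) := by
  rw [eucRep_apply]
  unfold sqv
  congr 1
  funext p
  rw [eucRep_apply]
  change ∑ q : ι × ι, (R g p.1 q.1 * conj (R g p.2 q.2)) * (x.ofLp q.1 * conj (x.ofLp q.2)) =
    (∑ i, R g p.1 i * x.ofLp i) * conj (∑ j, R g p.2 j * x.ofLp j)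
  rw [Fintype.sum_prod_type, map_sum, Finset.sum_mul_sum]
  refine Finset.sum_congr rfl fun i _ => Finset.sum_congr rfl fun j _ => ?_
  rw [map_mul]
  ring

theorem inner_sqv (y x : EuclideanSpace ℂ ι) :
    inner ℂ (sqv y) (sqv x) = ((‖inner ℂ y x‖ ^ 2 : ℝ) : ℂ) := by
  rw [EuclideanSpace.inner_eq_star_dotProduct]
  have h1 : inner ℂ y x = ∑ i, x.ofLp i * conj (y.ofLp i) := by
    rw [EuclideanSpace.inner_eq_star_dotProduct]; rfl
  push_cast
  rw [← Complex.conj_mul', h1]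
  change ∑ q : ι × ι, (x.ofLp q.1 * conj (x.ofLp q.2)) * conj (y.ofLp q.1 * conj (y.ofLp q.2)) = _
  rw [Fintype.sum_prod_type, map_sum, Finset.sum_mul_sum, Finset.sum_comm]
  refine Finset.sum_congr rfl fun i _ => Finset.sum_congr rfl fun j _ => ?_
  simp only [map_mul, Complex.conj_conj]
  ring

theorem norm_sqv (x : EuclideanSpace ℂ ι) : ‖sqv x‖ = ‖x‖ ^ 2 := by
  have h1 := inner_sqv x x
  rw [inner_self_eq_norm_sq_to_K, inner_self_eq_norm_sq_to_K] at h1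
  have h2 : ‖sqv x‖ ^ 2 = (‖x‖ ^ 2) ^ 2 := by
    have h3 : ((‖sqv x‖ ^ 2 : ℝ) : ℂ) = (((‖x‖ ^ 2) ^ 2 : ℝ) : ℂ) := by
      push_cast
      rw [show ((‖sqv x‖ : ℂ)) ^ 2 = ((‖sqv x‖ : ℝ) : ℂ) ^ 2 from rfl]
      simpa using h1
    exact Complex.ofReal_injective h3
  exact (pow_left_inj₀ (norm_nonneg _) (by positivity) (by norm_num)).1 h2

/-- averaging squared coefficients -/
theorem coeff_avg_mat {κ : Type} [Fintype κ] (U : κ → G) (η : ℝ) (hU : Exp G U η)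
    (hη : 0 ≤ η) (hR : ∀ g, (R g)ᴴ * R g = 1) (v w : EuclideanSpace ℂ ι) :
    ∑ k, ‖inner ℂ w (eucRep R (U k) v)‖ ^ 2 ≤ Fintype.card κ *
      ((Fintype.card G : ℝ)⁻¹ * (∑ g, ‖inner ℂ w (eucRep R g v)‖ ^ 2) + η * ‖v‖ ^ 2 * ‖w‖ ^ 2) := by
  set θ := eucRep (tensRep R) with hθ
  have hθn : ∀ g x, ‖θ g x‖ = ‖x‖ := eucRep_norm (tensRep R) (tensRep_unit R hR)
  set X := sqv v with hX
  set Y := sqv w with hY
  set X0 := nonInv θ X with hX0
  have h1 := hU _ θ hθn X0 (sum_nonInv θ X)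
  have h2 : ∀ g, inner ℂ Y (θ g X) = ((‖inner ℂ w (eucRep R g v)‖ ^ 2 : ℝ) : ℂ) := by
    intro g
    rw [hθ, hX, tens_sqv, hY, inner_sqv]
  have h3 : X = (Fintype.card G : ℂ)⁻¹ • ∑ g, θ g X + X0 := by
    rw [hX0]; unfold nonInv; abel
  have h4 : ∑ k, inner ℂ Y (θ (U k) X) = (Fintype.card κ : ℂ) *
      ((Fintype.card G : ℂ)⁻¹ * ∑ g, inner ℂ Y (θ g X)) + inner ℂ Y (∑ k, θ (U k) X0) := by
    have h5 : ∀ k, inner ℂ Y (θ (U k) X) = (Fintype.card G : ℂ)⁻¹ * ∑ g, inner ℂ Y (θ g X) +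
        inner ℂ Y (θ (U k) X0) := by
      intro k
      conv_lhs => rw [h3]
      rw [map_add, map_smul, rho_sum_left, inner_add_right, inner_smul_right, inner_sum]
    simp_rw [h5]
    rw [Finset.sum_add_distrib, Finset.sum_const, Finset.card_univ, nsmul_eq_mul, inner_sum]
  have h6 : (∑ k, ‖inner ℂ w (eucRep R (U k) v)‖ ^ 2 : ℝ) = (Fintype.card κ : ℝ) *
      ((Fintype.card G : ℝ)⁻¹ * ∑ g, ‖inner ℂ w (eucRep R g v)‖ ^ 2) +
        (inner ℂ Y (∑ k, θ (U k) X0)).re := by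
    have h7 := congrArg Complex.re h4
    simp_rw [h2] at h7
    rw [Complex.add_re] at h7
    have h8 : (∑ k, ((‖inner ℂ w (eucRep R (U k) v)‖ ^ 2 : ℝ) : ℂ)).re =
        ∑ k, ‖inner ℂ w (eucRep R (U k) v)‖ ^ 2 := by
      rw [← Complex.ofReal_sum, Complex.ofReal_re]
    have h9 : ((Fintype.card κ : ℂ) * ((Fintype.card G : ℂ)⁻¹ *
        ∑ g, ((‖inner ℂ w (eucRep R g v)‖ ^ 2 : ℝ) : ℂ))).re =
        (Fintype.card κ : ℝ) * ((Fintype.card G : ℝ)⁻¹ *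
          ∑ g, ‖inner ℂ w (eucRep R g v)‖ ^ 2) := by
      rw [← Complex.ofReal_sum, ← Complex.ofReal_natCast, ← Complex.ofReal_natCast,
        ← Complex.ofReal_inv, ← Complex.ofReal_mul, ← Complex.ofReal_mul, Complex.ofReal_re]
    rw [h8, h9] at h7
    exact h7
  rw [h6, mul_add]
  gcongr
  calc (inner ℂ Y (∑ k, θ (U k) X0)).re ≤ ‖inner ℂ Y (∑ k, θ (U k) X0)‖ := Complex.re_le_norm _
    _ ≤ ‖Y‖ * ‖∑ k, θ (U k) X0‖ := norm_inner_le_norm _ _
    _ ≤ ‖w‖ ^ 2 * (η * Fintype.card κ * ‖v‖ ^ 2) := by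
        rw [hY, norm_sqv]
        gcongr
        refine h1.trans ?_
        gcongr
        exact (norm_nonInv_le θ hθn X).trans (norm_sqv v).le
    _ = Fintype.card κ * (η * ‖v‖ ^ 2 * ‖w‖ ^ 2) := by ring

end tens

section general
variable {G : Type} [Group G] [Fintype G] {V : Type} [NormedAddCommGroup V]
  [InnerProductSpace ℂ V] [FiniteDimensional ℂ V] (ρ : Representation ℂ G V)

theorem sum_coef {d : Type} [Fintype d] (b : OrthonormalBasis d ℂ V) (A : V →ₗ[ℂ] V) (y x : V) :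
    ∑ k, inner ℂ y (A (b k)) * inner ℂ (b k) x = inner ℂ y (A x) := by
  conv_rhs => rw [← b.sum_repr' x, map_sum, inner_sum]
  refine Finset.sum_congr rfl fun k _ => ?_
  rw [map_smul, inner_smul_right, mul_comm]

/-- matrices of a representation -/
noncomputable def matRep {d : Type} [Fintype d] [DecidableEq d] (b : OrthonormalBasis d ℂ V) :
    G →* Matrix d d ℂ where
  toFun g := Matrix.of fun i j => inner ℂ (b i) (ρ g (b j))
  map_one' := by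
    ext i j
    rw [Matrix.of_apply, map_one]
    change inner ℂ (b i) (b j) = _
    rw [orthonormal_iff_ite.1 b.orthonormal i j, Matrix.one_apply]
  map_mul' g h := by
    ext i j
    rw [Matrix.of_apply, Matrix.mul_apply]
    simp_rw [Matrix.of_apply]
    rw [sum_coef b (ρ g), rho_mul_apply]

theorem matRep_unit {d : Type} [Fintype d] [DecidableEq d] (b : OrthonormalBasis d ℂ V)
    (hρ : ∀ g v, ‖ρ g v‖ = ‖v‖) (g : G) : (matRep ρ b g)ᴴ * matRep ρ b g = 1 := by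
  ext i j
  rw [Matrix.mul_apply, Matrix.one_apply]
  have h1 : ∀ k, (matRep ρ b g)ᴴ i k * matRep ρ b g k j =
      inner ℂ (ρ g (b i)) (b k) * inner ℂ (b k) (ρ g (b j)) := by
    intro k
    rw [Matrix.conjTranspose_apply]
    change star (inner ℂ (b k) (ρ g (b i))) * inner ℂ (b k) (ρ g (b j)) = _
    congr 1
    exact inner_conj_symm _ _
  simp_rw [h1]
  rw [b.sum_inner_mul_inner, inner_map_map ρ hρ, orthonormal_iff_ite.1 b.orthonormal i j]

theorem eucRep_matRep {d : Type} [Fintype d] [DecidableEq d] (b : OrthonormalBasis d ℂ V)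
    (g : G) (v : V) : eucRep (matRep ρ b) g (b.repr v) = b.repr (ρ g v) := by
  ext i
  rw [eucRep_apply, b.repr_apply_apply]
  change ∑ j, inner ℂ (b i) (ρ g (b j)) * (b.repr v).ofLp j = _
  have h1 : ∀ j, (b.repr v).ofLp j = inner ℂ (b j) v := fun j => b.repr_apply_apply v j
  simp_rw [h1]
  exact sum_coef b (ρ g) _ _

theorem coeff_avg {κ : Type} [Fintype κ] (U : κ → G) (η : ℝ) (hU : Exp G U η)
    (hη : 0 ≤ η) (hρ : ∀ g v, ‖ρ g v‖ = ‖v‖) (v w : V) :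
    ∑ k, ‖inner ℂ w (ρ (U k) v)‖ ^ 2 ≤ Fintype.card κ *
      ((Fintype.card G : ℝ)⁻¹ * (∑ g, ‖inner ℂ w (ρ g v)‖ ^ 2) + η * ‖v‖ ^ 2 * ‖w‖ ^ 2) := by
  set b := stdOrthonormalBasis ℂ V with hb
  have h1 := coeff_avg_mat (matRep ρ b) U η hU hη (matRep_unit ρ b hρ) (b.repr v) (b.repr w)
  simp_rw [eucRep_matRep ρ b] at h1
  simpa only [LinearIsometryEquiv.inner_map_map, LinearIsometryEquiv.norm_map] using h1

/-- twisted averages are contracted -/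
theorem twist_le {κ : Type} [Fintype κ] (U : κ → G) (η : ℝ) (hU : Exp G U η)
    (hη : 0 ≤ η) (hperf : Perf G) (hρ : ∀ g v, ‖ρ g v‖ = ‖v‖) (z : κ → ℂ)
    (hz : ∀ k, ‖z k‖ ≤ 1) (v : V) (hv : ∑ g, ρ g v = 0) :
    ‖∑ k, z k • ρ (U k) v‖ ≤ Real.sqrt (1 / 2 + η) * Fintype.card κ * ‖v‖ := by
  set w := ∑ k, z k • ρ (U k) v with hw
  have h1 : ‖w‖ ^ 2 ≤ ∑ k, ‖inner ℂ w (ρ (U k) v)‖ := by
    have h2 : ((‖w‖ ^ 2 : ℝ) : ℂ) = ∑ k, z k * inner ℂ w (ρ (U k) v) := by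
      have h3 := inner_self_eq_norm_sq_to_K (𝕜 := ℂ) w
      push_cast
      rw [show ((‖w‖ : ℂ)) ^ 2 = inner ℂ w w from h3.symm]
      conv_lhs => rw [hw]
      rw [← hw]
      conv_lhs => rw [inner_sum]
      simp_rw [inner_smul_right]
    calc ‖w‖ ^ 2 = ‖((‖w‖ ^ 2 : ℝ) : ℂ)‖ := by
          rw [Complex.norm_real, Real.norm_of_nonneg (by positivity)]
      _ = ‖∑ k, z k * inner ℂ w (ρ (U k) v)‖ := by rw [h2]
      _ ≤ ∑ k, ‖z k * inner ℂ w (ρ (U k) v)‖ := norm_sum_le _ _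
      _ ≤ ∑ k, ‖inner ℂ w (ρ (U k) v)‖ := Finset.sum_le_sum fun k _ => by
          rw [norm_mul]
          exact mul_le_of_le_one_left (norm_nonneg _) (hz k)
  have h4 : (∑ k, ‖inner ℂ w (ρ (U k) v)‖) ^ 2 ≤
      Fintype.card κ * ∑ k, ‖inner ℂ w (ρ (U k) v)‖ ^ 2 := by
    have := sq_sum_le_card_mul_sum_sq (s := Finset.univ) (f := fun k => ‖inner ℂ w (ρ (U k) v)‖)
    simpa using this
  have h5 := coeff_avg ρ U η hU hη hρ v w
  have h6 := coeff_sq_le ρ hperf hρ v w hv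
  have hG : (0 : ℝ) < Fintype.card G := by exact_mod_cast Fintype.card_pos
  have h7 : (Fintype.card G : ℝ)⁻¹ * (∑ g, ‖inner ℂ w (ρ g v)‖ ^ 2) ≤
      1 / 2 * ‖v‖ ^ 2 * ‖w‖ ^ 2 := by
    rw [inv_mul_le_iff₀ hG]
    calc _ ≤ _ := h6
      _ = _ := by ring
  have h8 : (‖w‖ ^ 2) ^ 2 ≤ (Fintype.card κ) ^ 2 * ((1 / 2 + η) * ‖v‖ ^ 2) * ‖w‖ ^ 2 := by
    calc (‖w‖ ^ 2) ^ 2 ≤ (∑ k, ‖inner ℂ w (ρ (U k) v)‖) ^ 2 :=
          pow_le_pow_left₀ (by positivity) h1 2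
      _ ≤ Fintype.card κ * (Fintype.card κ *
          (1 / 2 * ‖v‖ ^ 2 * ‖w‖ ^ 2 + η * ‖v‖ ^ 2 * ‖w‖ ^ 2)) := by
          refine h4.trans ?_
          gcongr
          exact h5.trans (by gcongr)
      _ = _ := by ring
  by_cases hw0 : ‖w‖ = 0
  · rw [hw0]; positivity
  have hwpos : 0 < ‖w‖ ^ 2 := by positivity
  have h9 : ‖w‖ ^ 2 ≤ (Fintype.card κ) ^ 2 * ((1 / 2 + η) * ‖v‖ ^ 2) := by
    rw [sq (‖w‖ ^ 2)] at h8
    exact le_of_mul_le_mul_right h8 hwpos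
  have h10 : (Real.sqrt (1 / 2 + η) * Fintype.card κ * ‖v‖) ^ 2 =
      (Fintype.card κ) ^ 2 * ((1 / 2 + η) * ‖v‖ ^ 2) := by
    rw [mul_pow, mul_pow, Real.sq_sqrt (by positivity)]; ring
  rw [← h10] at h9
  exact (abs_le_of_sq_le_sq' h9 (by positivity)).2

end general

end Pool.Agent.Helper15.Pair
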