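import Pool.Agent.Helper15.Pair.Def

/-! Matrix coefficients of representations without one-dimensional constituents. -/

set_option linter.unusedSectionVars false

namespace Pool.Agent.Helper15.Pair

open scoped ComplexConjugate

section frame
variable {G : Type} [Group G] [Fintype G] {V : Type} [NormedAddCommGroup V]
  [InnerProductSpace ℂ V] [FiniteDimensional ℂ V] (ρ : Representation ℂ G V)

/-- frame operator of the orbit of `v` -/
noncomputable def frameOp (v : V) : V →ₗ[ℂ] V where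
  toFun w := ∑ g, inner ℂ (ρ g v) w • ρ g v
  map_add' a b := by
    rw [← Finset.sum_add_distrib]
    refine Finset.sum_congr rfl fun g _ => ?_
    rw [inner_add_right, add_smul]
  map_smul' c a := by
    rw [RingHom.id_apply, Finset.smul_sum]
    refine Finset.sum_congr rfl fun g _ => ?_
    rw [inner_smul_right, mul_smul]

theorem frameOp_apply (v w : V) : frameOp ρ v w = ∑ g, inner ℂ (ρ g v) w • ρ g v := rfl

theorem frameOp_symm (v : V) : (frameOp ρ v).IsSymmetric := by
  intro a b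
  rw [frameOp_apply, frameOp_apply, sum_inner, inner_sum]
  refine Finset.sum_congr rfl fun g _ => ?_
  rw [inner_smul_left, inner_smul_right, inner_conj_symm]
  ring

theorem inner_frameOp (v w : V) :
    inner ℂ w (frameOp ρ v w) = ((∑ g, ‖inner ℂ w (ρ g v)‖ ^ 2 : ℝ) : ℂ) := by
  rw [frameOp_apply, inner_sum]
  push_cast
  refine Finset.sum_congr rfl fun g _ => ?_
  rw [inner_smul_right, ← inner_conj_symm (ρ g v) w, Complex.conj_mul']

theorem frameOp_comm (hρ : ∀ g v, ‖ρ g v‖ = ‖v‖) (v w : V) (h : G) :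
    frameOp ρ v (ρ h w) = ρ h (frameOp ρ v w) := by
  rw [frameOp_apply, frameOp_apply, map_sum]
  rw [← Equiv.sum_comp (Equiv.mulLeft h)]
  refine Finset.sum_congr rfl fun g _ => ?_
  rw [Equiv.coe_mulLeft, rho_mul_apply, inner_map_map ρ hρ, map_smul]

theorem sum_frameOp (v w : V) (hv : ∑ g, ρ g v = 0) : ∑ g, ρ g (frameOp ρ v w) = 0 := by
  simp_rw [frameOp_apply, map_sum, map_smul]
  rw [Finset.sum_comm]
  refine Finset.sum_eq_zero fun g _ => ?_
  rw [← Finset.smul_sum, rho_sum_right, hv, smul_zero]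

theorem eig_le (hperf : Perf G) (hρ : ∀ g v, ‖ρ g v‖ = ‖v‖) (v : V) (hv : ∑ g, ρ g v = 0)
    (u : V) (hu : ‖u‖ = 1) (l : ℝ) (hl : frameOp ρ v u = (l : ℂ) • u) :
    l ≤ Fintype.card G / 2 * ‖v‖ ^ 2 := by
  by_cases hl0 : l ≤ 0
  · exact hl0.trans (by positivity)
  push Not at hl0
  have hune : u ≠ 0 := by rintro rfl; simp at hu
  have hsum : ∑ g, ρ g u = 0 := by
    have h1 := sum_frameOp ρ v u hv
    rw [hl] at h1
    simp_rw [map_smul] at h1
    rw [← Finset.smul_sum] at h1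
    rcases smul_eq_zero.1 h1 with h | h
    · exact absurd (by exact_mod_cast h) hl0.ne'
    · exact h
  have huu : inner ℂ u u = (1 : ℂ) := by rw [inner_self_eq_norm_sq_to_K, hu]; simp
  obtain ⟨g, hg⟩ : ∃ g, ρ g u ≠ inner ℂ u (ρ g u) • u := by
    by_contra hall
    push Not at hall
    let f : G →* ℂ :=
      { toFun := fun g => inner ℂ u (ρ g u)
        map_one' := by rw [map_one]; exact huu
        map_mul' := by
          intro a b
          rw [rho_mul_apply, hall b, map_smul, inner_smul_right]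
          rw [inner_smul_right, huu, mul_one]
          ring }
    have h1 : ∀ g, f g = 1 := by
      intro g
      have := congrArg Units.val (hperf f.toHomUnits g)
      simpa using this
    have h2 : ∀ g, ρ g u = u := by
      intro g
      rw [hall g]
      have : inner ℂ u (ρ g u) = (1 : ℂ) := h1 g
      rw [this, one_smul]
    simp_rw [h2] at hsum
    rw [Finset.sum_const, Finset.card_univ, ← Nat.cast_smul_eq_nsmul ℂ] at hsum
    rcases smul_eq_zero.1 hsum with h | h
    · exact card_ne h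
    · exact hune h
  set p : V := ρ g u - inner ℂ u (ρ g u) • u with hp
  have hp0 : p ≠ 0 := sub_ne_zero.2 hg
  have hup : inner ℂ u p = (0 : ℂ) := by
    rw [hp, inner_sub_right, inner_smul_right, huu, mul_one, sub_self]
  have hBp : frameOp ρ v p = (l : ℂ) • p := by
    rw [hp, map_sub, map_smul, frameOp_comm ρ hρ, hl, map_smul, smul_sub]
    congr 1
    rw [smul_comm]
  have hpn : ‖p‖ ≠ 0 := norm_ne_zero_iff.2 hp0
  set w : V := ((‖p‖ : ℂ))⁻¹ • p with hw
  have hwn : ‖w‖ = 1 := by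
    rw [hw, norm_smul, norm_inv, Complex.norm_real, norm_norm, inv_mul_cancel₀ hpn]
  have huw : inner ℂ u w = (0 : ℂ) := by rw [hw, inner_smul_right, hup, mul_zero]
  have hBw : frameOp ρ v w = (l : ℂ) • w := by
    rw [hw, map_smul, hBp, smul_comm]
  have hval : ∀ z : V, ‖z‖ = 1 → frameOp ρ v z = (l : ℂ) • z →
      ∑ g, ‖inner ℂ z (ρ g v)‖ ^ 2 = l := by
    intro z hz hBz
    have h1 := inner_frameOp ρ v z
    rw [hBz, inner_smul_right, inner_self_eq_norm_sq_to_K, hz] at h1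
    have h2 : (l : ℂ) = ((∑ g, ‖inner ℂ z (ρ g v)‖ ^ 2 : ℝ) : ℂ) := by
      rw [← h1]; simp
    exact (Complex.ofReal_injective h2).symm
  have hon : Orthonormal ℂ ![u, w] := by
    have hwu : inner ℂ w u = (0 : ℂ) := by rw [← inner_conj_symm, huw, map_zero]
    rw [orthonormal_iff_ite]
    intro i j
    fin_cases i <;> fin_cases j <;> simp [hu, huw, hwn, hwu]
  have hbes : ∀ z : V, ‖inner ℂ u z‖ ^ 2 + ‖inner ℂ w z‖ ^ 2 ≤ ‖z‖ ^ 2 := by
    intro z
    have := hon.sum_inner_products_le z (s := Finset.univ)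
    simpa [Fin.sum_univ_two] using this
  have h3 : 2 * l ≤ ∑ g : G, ‖ρ g v‖ ^ 2 := by
    calc 2 * l = ∑ g, (‖inner ℂ u (ρ g v)‖ ^ 2 + ‖inner ℂ w (ρ g v)‖ ^ 2) := by
          rw [Finset.sum_add_distrib, hval u hu hl, hval w hwn hBw]; ring
      _ ≤ _ := Finset.sum_le_sum fun g _ => hbes _
  simp_rw [hρ] at h3
  rw [Finset.sum_const, Finset.card_univ, nsmul_eq_mul] at h3
  linarith

/-- the mean square of a matrix coefficient is at most one half -/
theorem coeff_sq_le (hperf : Perf G) (hρ : ∀ g v, ‖ρ g v‖ = ‖v‖) (v w : V)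
    (hv : ∑ g, ρ g v = 0) :
    ∑ g, ‖inner ℂ w (ρ g v)‖ ^ 2 ≤ Fintype.card G / 2 * ‖v‖ ^ 2 * ‖w‖ ^ 2 := by
  set B := frameOp ρ v with hB
  have hsym := frameOp_symm ρ v
  set b := hsym.eigenvectorBasis (rfl : Module.finrank ℂ V = _) with hb
  set l := hsym.eigenvalues (rfl : Module.finrank ℂ V = _) with hl
  have hap : ∀ i, B (b i) = (l i : ℂ) • b i := fun i => hsym.apply_eigenvectorBasis rfl i
  have hle : ∀ i, l i ≤ Fintype.card G / 2 * ‖v‖ ^ 2 := fun i =>
    eig_le ρ hperf hρ v hv (b i) (b.orthonormal.1 i) (l i) (hap i)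
  have h1 := inner_frameOp ρ v w
  rw [← b.sum_inner_mul_inner] at h1
  have h2 : ∀ i, inner ℂ w (b i) * inner ℂ (b i) (frameOp ρ v w) =
      ((l i * ‖inner ℂ (b i) w‖ ^ 2 : ℝ) : ℂ) := by
    intro i
    rw [← hsym (b i) w, ← hB, hap i, inner_smul_left, ← inner_conj_symm w (b i)]
    push_cast
    rw [← Complex.conj_mul', Complex.conj_ofReal]
    ring
  simp_rw [h2] at h1
  have h3 : ∑ i, l i * ‖inner ℂ (b i) w‖ ^ 2 = ∑ g, ‖inner ℂ w (ρ g v)‖ ^ 2 := by
    exact_mod_cast h1
  rw [← h3]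
  calc ∑ i, l i * ‖inner ℂ (b i) w‖ ^ 2 ≤
        ∑ i, (Fintype.card G / 2 * ‖v‖ ^ 2) * ‖inner ℂ (b i) w‖ ^ 2 :=
        Finset.sum_le_sum fun i _ => mul_le_mul_of_nonneg_right (hle i) (by positivity)
    _ = Fintype.card G / 2 * ‖v‖ ^ 2 * ‖w‖ ^ 2 := by
        rw [← Finset.mul_sum, b.sum_sq_norm_inner_right]

end frame

end Pool.Agent.Helper15.Pair
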