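import Pool.Agent.Helper15.Pair.Avg
import Pool.Agent.Helper15.Pair.Base

/-! Expanding families in wreath products. -/

set_option linter.unusedSectionVars false

namespace Pool.Agent.Helper15.Pair

open Equiv

section altsum
variable {n : ℕ} {κ M : Type} [AddCommGroup M]

theorem sum_perm_eq (c₀ : Fin n → κ) (a b : Fin n) (hab : a ≠ b) (hc : c₀ a = c₀ b)
    (F : (Fin n → κ) → M) :
    ∑ σ : Perm (Fin n), F (fun i => c₀ (σ i)) =
      2 • ∑ h : alternatingGroup (Fin n), F (fun i => c₀ ((h : Perm (Fin n))⁻¹ i)) := by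
  have hinv : ∑ h : alternatingGroup (Fin n), F (fun i => c₀ ((h : Perm (Fin n))⁻¹ i)) =
      ∑ h : alternatingGroup (Fin n), F (fun i => c₀ ((h : Perm (Fin n)) i)) := by
    rw [← Equiv.sum_comp (Equiv.inv (alternatingGroup (Fin n)))]
    refine Finset.sum_congr rfl fun h _ => ?_
    rfl
  have hsub : ∑ σ ∈ Finset.univ.filter (fun σ : Perm (Fin n) => Perm.sign σ = 1),
      F (fun i => c₀ (σ i)) =
      ∑ h : alternatingGroup (Fin n), F (fun i => c₀ ((h : Perm (Fin n)) i)) := by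
    refine Finset.sum_subtype _ (fun g => ?_) (fun σ : Perm (Fin n) => F (fun i => c₀ (σ i)))
    rw [Finset.mem_filter, Perm.mem_alternatingGroup]
    exact ⟨fun h => h.2, fun h => ⟨Finset.mem_univ g, h⟩⟩
  have hswap : ∀ x, c₀ (swap a b x) = c₀ x := by
    intro x
    rcases eq_or_ne x a with rfl | hxa
    · rw [swap_apply_left, hc]
    · rcases eq_or_ne x b with rfl | hxb
      · rw [swap_apply_right, hc]
      · rw [swap_apply_of_ne_of_ne hxa hxb]
  have hodd : ∑ σ ∈ Finset.univ.filter (fun σ : Perm (Fin n) => ¬ Perm.sign σ = 1),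
      F (fun i => c₀ (σ i)) =
      ∑ σ ∈ Finset.univ.filter (fun σ : Perm (Fin n) => Perm.sign σ = 1),
      F (fun i => c₀ (σ i)) := by
    refine Finset.sum_nbij' (fun σ => swap a b * σ) (fun σ => swap a b * σ) ?_ ?_ ?_ ?_ ?_
    · intro σ hσ
      rw [Finset.mem_filter] at hσ ⊢
      refine ⟨Finset.mem_univ _, ?_⟩
      rw [Perm.sign_mul, Perm.sign_swap hab]
      rcases Int.units_eq_one_or (Perm.sign σ) with h | h
      · exact absurd h hσ.2
      · rw [h]; rfl
    · intro σ hσ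
      rw [Finset.mem_filter] at hσ ⊢
      refine ⟨Finset.mem_univ _, ?_⟩
      rw [Perm.sign_mul, Perm.sign_swap hab, hσ.2]
      decide
    · intro σ _
      rw [← mul_assoc, swap_mul_self, one_mul]
    · intro σ _
      rw [← mul_assoc, swap_mul_self, one_mul]
    · intro σ _
      congr 1
      funext i
      rw [Perm.mul_apply, hswap]
  rw [hinv, two_smul, ← hsub,
    ← Finset.sum_filter_add_sum_filter_not Finset.univ (fun σ : Perm (Fin n) => Perm.sign σ = 1),
    hodd]

end altsum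

theorem perf_alt {n : ℕ} (hn : 5 ≤ n) : Perf (alternatingGroup (Fin n)) := by
  intro χ g
  have h3 : ∀ σ : alternatingGroup (Fin n), Perm.IsThreeCycle (σ : Perm (Fin n)) → χ σ = 1 := by
    intro σ hσ
    have h1 : Perm.IsThreeCycle ((σ * σ : alternatingGroup (Fin n)) : Perm (Fin n)) :=
      Perm.IsThreeCycle.isThreeCycle_sq hσ
    have h2 := alternatingGroup.isThreeCycle_isConj (by simpa using hn) hσ h1
    obtain ⟨c, hc⟩ := isConj_iff.1 h2
    have h4 := congrArg χ hc
    rw [map_mul, map_mul, map_inv, mul_comm (χ c), mul_assoc, mul_inv_cancel, mul_one,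
      map_mul] at h4
    exact (left_eq_mul.1 h4)
  have h4 : g ∈ Subgroup.closure
      {g : alternatingGroup (Fin n) | Perm.IsThreeCycle (g : Perm (Fin n))} := by
    rw [alternatingGroup.closure_isThreeCycles_eq_top]; trivial
  have h5 : Subgroup.closure
      {g : alternatingGroup (Fin n) | Perm.IsThreeCycle (g : Perm (Fin n))} ≤ χ.ker := by
    rw [Subgroup.closure_le]
    intro σ hσ
    exact h3 σ hσ
  exact h5 h4

section wreath
variable {n : ℕ} {G W : Type} [Group G] [Fintype G] [Group W] [Fintype W]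
  (ι : (Fin n → G) →* W) (s : alternatingGroup (Fin n) →* W)
  {V : Type} [NormedAddCommGroup V] [InnerProductSpace ℂ V]

theorem perf_wreath
    (hgen : ∀ w, ∃ (f : Fin n → G) (h : alternatingGroup (Fin n)), w = ι f * s h)
    (hn : 5 ≤ n) (hG : Perf G) : Perf W := by
  intro χ w
  obtain ⟨f, h, rfl⟩ := hgen w
  have h1 : χ (s h) = 1 := perf_alt hn (χ.comp s) h
  have h2 : χ (ι f) = 1 := by
    have : f ∈ (χ.comp ι).ker := by
      refine Subgroup.pi_mem_of_mulSingle_mem _ fun i => ?_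
      exact hG ((χ.comp ι).comp (MonoidHom.mulSingle (fun _ => G) i)) (f i)
    exact this
  rw [map_mul, h1, h2, one_mul]

theorem sumN_comm (ρ : Representation ℂ W V)
    (hcomm : ∀ (h : alternatingGroup (Fin n)) (f : Fin n → G),
      s h * ι f = ι (fun i => f ((h : Perm (Fin n))⁻¹ i)) * s h)
    (h : alternatingGroup (Fin n)) (v : V) :
    ∑ f : Fin n → G, ρ (ι f) (ρ (s h) v) = ρ (s h) (∑ f : Fin n → G, ρ (ι f) v) := by
  rw [map_sum]
  simp_rw [← rho_mul_apply]
  have h1 : ∀ f : Fin n → G, s h * ι f = ι (fun i => f ((h : Perm (Fin n))⁻¹ i)) * s h := hcomm h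
  simp_rw [h1]
  exact (Equiv.sum_comp (Equiv.arrowCongr (h : Perm (Fin n)) (Equiv.refl G))
    (fun f => ρ (ι f * s h) v)).symm

theorem inv_s (ρ : Representation ℂ W V)
    (hcomm : ∀ (h : alternatingGroup (Fin n)) (f : Fin n → G),
      s h * ι f = ι (fun i => f ((h : Perm (Fin n))⁻¹ i)) * s h)
    (h : alternatingGroup (Fin n)) (v : V) (hv : ∀ f : Fin n → G, ρ (ι f) v = v)
    (f : Fin n → G) : ρ (ι f) (ρ (s h) v) = ρ (s h) v := by
  have h1 := hcomm h (fun i => f ((h : Perm (Fin n)) i))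
  have h2 : (fun i => f ((h : Perm (Fin n)) ((h : Perm (Fin n))⁻¹ i))) = f := by
    funext i; simp
  rw [h2] at h1
  rw [← rho_mul_apply, ← h1, rho_mul_apply, hv]

/-- lifting expanding families to wreath products -/
theorem lift_exp
    (hcomm : ∀ (h : alternatingGroup (Fin n)) (f : Fin n → G),
      s h * ι f = ι (fun i => f ((h : Perm (Fin n))⁻¹ i)) * s h)
    (hgen : ∀ w, ∃ (f : Fin n → G) (h : alternatingGroup (Fin n)), w = ι f * s h)
    {κ κ' : Type} [Fintype κ] [DecidableEq κ] [Fintype κ'] (U : κ → G) (c₀ : Fin n → κ)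
    (hc₀ : ∀ k, colN c₀ k = qq) (hU : Exp G U (1 / 100)) (hperf : Perf G)
    (hκ : 0 < Fintype.card κ) (T : κ' → alternatingGroup (Fin n))
    (hT : Exp (alternatingGroup (Fin n)) T (1 / 100)) :
    Exp W (fun p : κ' × κ' => s (T p.1) * ι (fun i => U (c₀ i)) * s (T p.2)) (7 / 100) := by
  intro V _ _ _ ρ hρ v hv
  set ρN : Representation ℂ (Fin n → G) V := ρ.comp ι with hρN
  set ρH : Representation ℂ (alternatingGroup (Fin n)) V := ρ.comp s with hρH
  have hNn : ∀ g v, ‖ρN g v‖ = ‖v‖ := fun g v => hρ _ _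
  have hHn : ∀ g v, ‖ρH g v‖ = ‖v‖ := fun g v => hρ _ _
  have hNap : ∀ g v, ρN g v = ρ (ι g) v := fun _ _ => rfl
  have hHap : ∀ g v, ρH g v = ρ (s g) v := fun _ _ => rfl
  set D : ℝ := (Fintype.card κ' : ℝ) with hD
  have hD0 : 0 ≤ D := by rw [hD]; positivity
  set A : V →ₗ[ℂ] V := ∑ k, ρH (T k) with hA
  have hAap : ∀ w, A w = ∑ k, ρH (T k) w := by
    intro w; rw [hA, LinearMap.sum_apply]
  set c : Fin n → G := fun i => U (c₀ i) with hc
  set X : V →ₗ[ℂ] V := ρN c with hX
  have hXn : ∀ w, ‖X w‖ = ‖w‖ := fun w => hNn c w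
  have hA1 : ∀ w, ‖A w‖ ≤ D * ‖w‖ := by
    intro w
    rw [hAap]
    refine (norm_sum_le _ _).trans ?_
    simp_rw [hHn]
    rw [Finset.sum_const, Finset.card_univ, nsmul_eq_mul]
  have hA2 : ∀ w, ∑ h, ρH h w = 0 → ‖A w‖ ≤ 1 / 100 * D * ‖w‖ := by
    intro w hw
    rw [hAap]
    exact hT V ρH hHn w hw
  -- splitting off the invariants of the permutation group
  set P : V → V := fun w =>
    (Fintype.card (alternatingGroup (Fin n)) : ℂ)⁻¹ • ∑ h, ρH h w with hP
  have hPn : ∀ w, ‖P w‖ ≤ ‖w‖ := by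
    intro w
    have h1 := norm_sq_split ρH hHn w
    have h2 : ‖P w‖ ^ 2 ≤ ‖w‖ ^ 2 := by
      rw [h1]
      have : 0 ≤ ‖nonInv ρH w‖ ^ 2 := by positivity
      exact le_add_of_nonneg_right this
    exact (abs_le_of_sq_le_sq' h2 (norm_nonneg w)).2
  have hsplit : ∀ w, A w = (Fintype.card κ' : ℂ) • P w + A (nonInv ρH w) := by
    intro w
    have h1 : w = P w + nonInv ρH w := by
      rw [hP]; unfold nonInv; abel
    conv_lhs => rw [h1, map_add]
    congr 1
    rw [hAap]
    have h2 : ∀ k, ρH (T k) (P w) = P w := by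
      intro k
      rw [hP]
      simp only [map_smul]
      rw [rho_sum_left]
    simp_rw [h2]
    rw [Finset.sum_const, Finset.card_univ, Nat.cast_smul_eq_nsmul]
  have hrest : ∀ w, ‖A (nonInv ρH w)‖ ≤ 1 / 100 * D * ‖w‖ := by
    intro w
    refine (hA2 _ (sum_nonInv ρH w)).trans ?_
    have := norm_nonInv_le ρH hHn w
    gcongr
  have hH0 : (0 : ℝ) < Fintype.card (alternatingGroup (Fin n)) := by
    exact_mod_cast Fintype.card_pos
  -- two points of the same colour
  obtain ⟨a, b, hab, hcab⟩ : ∃ a b, a ≠ b ∧ c₀ a = c₀ b := by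
    obtain ⟨k⟩ : Nonempty κ := Fintype.card_pos_iff.1 hκ
    have h1 := hc₀ k
    have h2 : 1 < (Finset.univ.filter (fun i => c₀ i = k)).card := by
      unfold colN at h1
      rw [h1, qq_eq]; norm_num
    obtain ⟨a, ha, b, hb, hab⟩ := Finset.one_lt_card.1 h2
    exact ⟨a, b, hab, by rw [(Finset.mem_filter.1 ha).2, (Finset.mem_filter.1 hb).2]⟩
  have hn2 : Nontrivial (Fin n) := ⟨a, b, hab⟩
  have hfact : ((n.factorial : ℕ) : ℝ) = 2 * Fintype.card (alternatingGroup (Fin n)) := by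
    have h2 := two_mul_card_alternatingGroup (α := Fin n)
    rw [Fintype.card_perm, Fintype.card_fin] at h2
    rw [← h2]; push_cast; rfl
  have hPXP : ∀ w, ∑ f, ρN f w = 0 → ‖P (X (P w))‖ ≤ 1 / 20 * ‖w‖ := by
    intro w hw
    have hPw : ∑ f, ρN f (P w) = 0 := by
      rw [hP]
      simp only [map_smul, map_sum]
      rw [← Finset.smul_sum, Finset.sum_comm]
      have : ∀ h, ∑ f, ρN f (ρH h w) = 0 := by
        intro h
        have h1 := sumN_comm ι s ρ hcomm h w
        simp only [hNap, hHap]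
        rw [h1]
        have h2 : ∑ f, ρ (ι f) w = 0 := hw
        rw [h2, map_zero]
      simp [this]
    have h1 := perm_avg ρN hNn U hU hperf hκ c₀ hc₀ (P w) hPw
    have h2 := sum_perm_eq c₀ a b hab hcab (fun c' : Fin n → κ => ρN (fun i => U (c' i)) (P w))
    rw [h2, Fintype.card_fin, hfact, ← Nat.cast_smul_eq_nsmul ℂ, norm_smul,
      Complex.norm_natCast] at h1
    have h3 : ∑ h, ρH h (X (P w)) = ∑ h : alternatingGroup (Fin n),
        ρN (fun i => U (c₀ ((h : Perm (Fin n))⁻¹ i))) (P w) := by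
      refine Finset.sum_congr rfl fun h _ => ?_
      have h4 : ρH h (X (P w)) = ρ (s h * ι c) (P w) := by
        rw [rho_mul_apply]; rfl
      rw [h4, hcomm, rho_mul_apply]
      have h5 : ρ (s h) (P w) = P w := by
        rw [hP]
        simp only [map_smul]
        have := rho_sum_left ρH h w
        rw [hHap] at this
        rw [this]
      rw [h5]
      rfl
    have h6 : ‖P (X (P w))‖ = (Fintype.card (alternatingGroup (Fin n)) : ℝ)⁻¹ *
        ‖∑ h : alternatingGroup (Fin n),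
          ρN (fun i => U (c₀ ((h : Perm (Fin n))⁻¹ i))) (P w)‖ := by
      rw [← h3]
      change ‖(Fintype.card (alternatingGroup (Fin n)) : ℂ)⁻¹ • ∑ h, ρH h (X (P w))‖ = _
      rw [norm_smul, norm_inv, Complex.norm_natCast]
    rw [h6, inv_mul_le_iff₀ hH0]
    have h7 := hPn w
    push_cast at h1
    have h8 : ‖∑ h : alternatingGroup (Fin n),
        ρN (fun i => U (c₀ ((h : Perm (Fin n))⁻¹ i))) (P w)‖ ≤
        Fintype.card (alternatingGroup (Fin n)) * (1 / 20 * ‖P w‖) := by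
      linarith
    refine h8.trans ?_
    gcongr
  have hF3 : ∀ w, ∑ f, ρN f w = 0 → ‖A (X (A w))‖ ≤ 7 / 100 * (D * D) * ‖w‖ := by
    intro w hw
    have e1 : A (X (A w)) = (Fintype.card κ' : ℂ) • ((Fintype.card κ' : ℂ) • P (X (P w)) +
        A (nonInv ρH (X (P w)))) + A (X (A (nonInv ρH w))) := by
      rw [hsplit w, map_add, map_add, map_smul, map_smul, hsplit (X (P w))]
    rw [e1]
    have b1 := hPXP w hw
    have b2 := hrest (X (P w))
    have b3 := hrest w
    have b4 := hA1 (X (A (nonInv ρH w)))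
    rw [hXn] at b2 b4
    have b5 := hPn w
    have n1 : ‖(Fintype.card κ' : ℂ)‖ = D := Complex.norm_natCast _
    calc _ ≤ ‖(Fintype.card κ' : ℂ) • ((Fintype.card κ' : ℂ) • P (X (P w)) +
        A (nonInv ρH (X (P w))))‖ + ‖A (X (A (nonInv ρH w)))‖ := norm_add_le _ _
      _ ≤ D * (D * ‖P (X (P w))‖ + ‖A (nonInv ρH (X (P w)))‖) +
          D * ‖A (nonInv ρH w)‖ := by
          rw [norm_smul, n1]
          gcongr
          refine (norm_add_le _ _).trans ?_
          rw [norm_smul, n1]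
      _ ≤ D * (D * (1 / 20 * ‖w‖) + 1 / 100 * D * ‖w‖) + D * (1 / 100 * D * ‖w‖) := by
          gcongr
          exact b2.trans (by gcongr)
      _ = _ := by ring
  have hF4 : ∀ w, (∀ f, ρN f w = w) → ∑ g, ρ g w = 0 →
      ‖A (X (A w))‖ ≤ 7 / 100 * (D * D) * ‖w‖ := by
    intro w hw hw0
    have e0 : ∑ h, ρH h w = 0 := by
      set u := ∑ h, ρH h w with hu
      have h1 : ∀ g, ρ g u = u := by
        intro g
        obtain ⟨f, h, rfl⟩ := hgen g
        rw [rho_mul_apply]
        have h2 : ρ (s h) u = u := rho_sum_left ρH h w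
        rw [h2, hu, map_sum]
        exact Finset.sum_congr rfl fun h' _ => inv_s ι s ρ hcomm h' w hw f
      have h2 : ∑ g, ρ g u = 0 := by
        rw [hu]
        simp_rw [map_sum]
        rw [Finset.sum_comm]
        refine Finset.sum_eq_zero fun h _ => ?_
        rw [hHap, rho_sum_right, hw0]
      simp_rw [h1] at h2
      rw [Finset.sum_const, Finset.card_univ, ← Nat.cast_smul_eq_nsmul ℂ] at h2
      rcases smul_eq_zero.1 h2 with h | h
      · exact absurd h card_ne
      · exact h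
    have e1 : X (A w) = A w := by
      rw [hAap, map_sum]
      exact Finset.sum_congr rfl fun k _ => inv_s ι s ρ hcomm (T k) w hw c
    have e2 : ∑ h, ρH h (A w) = 0 := by
      rw [hAap]
      simp_rw [map_sum]
      rw [Finset.sum_comm]
      refine Finset.sum_eq_zero fun k _ => ?_
      rw [rho_sum_right, e0]
    rw [e1]
    have b1 := hA2 _ e2
    have b2 := hA2 _ e0
    calc ‖A (A w)‖ ≤ 1 / 100 * D * ‖A w‖ := b1
      _ ≤ 1 / 100 * D * (1 / 100 * D * ‖w‖) := by gcongr
      _ = 1 / 10000 * (D * D) * ‖w‖ := by ring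
      _ ≤ _ := by
        have : 0 ≤ (D * D) * ‖w‖ := by positivity
        nlinarith
  -- combination
  have hsum : ∑ p : κ' × κ', ρ (s (T p.1) * ι c * s (T p.2)) v = A (X (A v)) := by
    rw [Fintype.sum_prod_type, hAap (X (A v))]
    refine Finset.sum_congr rfl fun k _ => ?_
    rw [hAap v, map_sum, map_sum]
    refine Finset.sum_congr rfl fun k' _ => ?_
    rw [rho_mul_apply, rho_mul_apply]
    rfl
  rw [hsum, Fintype.card_prod]
  set w1 := (Fintype.card (Fin n → G) : ℂ)⁻¹ • ∑ f, ρN f v with hw1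
  set w2 := nonInv ρN v with hw2
  have hv12 : v = w1 + w2 := by rw [hw2]; unfold nonInv; rw [hw1]; abel
  have i1 : ∀ f, ρN f w1 = w1 := by
    intro f
    rw [hw1, map_smul, rho_sum_left]
  have i2 : ∑ g, ρ g w1 = 0 := by
    rw [hw1]
    simp_rw [map_smul, map_sum]
    rw [← Finset.smul_sum, Finset.sum_comm]
    have : ∀ f, ∑ g, ρ g (ρN f v) = 0 := by
      intro f
      rw [hNap, rho_sum_right, hv]
    simp [this]
  have b1 := hF4 w1 i1 i2
  have b2 := hF3 w2 (sum_nonInv ρN v)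
  have j1 : ∀ w, (∀ f, ρN f w = w) → ∀ f, ρN f (A w) = A w := by
    intro w hw f
    rw [hAap, map_sum]
    exact Finset.sum_congr rfl fun k _ => inv_s ι s ρ hcomm (T k) w hw f
  have j2 : ∀ w, (∑ f, ρN f w = 0) → ∑ f, ρN f (A w) = 0 := by
    intro w hw
    rw [hAap]
    simp_rw [map_sum]
    rw [Finset.sum_comm]
    refine Finset.sum_eq_zero fun k _ => ?_
    have h1 := sumN_comm ι s ρ hcomm (T k) w
    have h2 : ∑ f, ρ (ι f) w = 0 := hw
    rw [h2, map_zero] at h1
    exact h1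
  have k1 : ∀ f, ρN f (A (X (A w1))) = A (X (A w1)) := by
    refine j1 _ fun f => ?_
    have := j1 w1 i1
    rw [hX, this, this]
  have k2 : ∑ f, ρN f (A (X (A w2))) = 0 := by
    refine j2 _ ?_
    rw [hX, rho_sum_right]
    exact j2 _ (sum_nonInv ρN v)
  have hperp : inner ℂ (A (X (A w1))) (A (X (A w2))) = (0 : ℂ) := by
    have h1 := inner_inv_nonInv ρN hNn (A (X (A w1))) (A (X (A w2))) k2
    simp_rw [k1] at h1
    rw [Finset.sum_const, Finset.card_univ, ← Nat.cast_smul_eq_nsmul ℂ, inner_smul_left] at h1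
    rcases mul_eq_zero.1 h1 with h | h
    · rw [map_natCast] at h
      exact absurd h card_ne
    · exact h
  have hpy := norm_add_sq_eq_norm_sq_add_norm_sq_of_inner_eq_zero _ _ hperp
  rw [← map_add, ← map_add, ← map_add, ← hv12] at hpy
  have hv2 := norm_sq_split ρN hNn v
  rw [← hw1, ← hw2] at hv2
  have hfin : ‖A (X (A v))‖ ^ 2 ≤ (7 / 100 * (D * D) * ‖v‖) ^ 2 := by
    calc ‖A (X (A v))‖ ^ 2 = ‖A (X (A w1))‖ ^ 2 + ‖A (X (A w2))‖ ^ 2 := by
          rw [sq, sq, sq]; exact hpy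
      _ ≤ (7 / 100 * (D * D) * ‖w1‖) ^ 2 + (7 / 100 * (D * D) * ‖w2‖) ^ 2 := by gcongr
      _ = (7 / 100 * (D * D)) ^ 2 * (‖w1‖ ^ 2 + ‖w2‖ ^ 2) := by ring
      _ = _ := by rw [← hv2]; ring
  have := (abs_le_of_sq_le_sq' hfin (by positivity)).2
  refine this.trans (le_of_eq ?_)
  push_cast
  ring

end wreath

end Pool.Agent.Helper15.Pair
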